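import Mathlib

/-!
# Row insertion and inverse descents

`R134.RJ.insTab w` is the insertion tableau (English notation, list of rows) of a word `w` of
natural numbers under Schensted row insertion.  The main lemma of this file: for a word `w`
without repetitions containing `v` and `v+1`, the entry `v+1` lies in a row strictly below the row
of `v` in `insTab w` iff `v+1` occurs to the left of `v` in `w`.
-/

namespace R134.RJ

/-- Schensted row insertion of `x` into a row: `x` replaces the leftmost entry larger than `x`
(which is returned as `some y`), or is put at the end of the row (and `none` is returned). -/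
def rowInsert (x : ℕ) : List ℕ → List ℕ × Option ℕ
  | [] => ([x], none)
  | y :: ys => if x < y then (x :: ys, some y) else (y :: (rowInsert x ys).1, (rowInsert x ys).2)

/-- Row insertion of `x` into a tableau (a list of rows, top row first). -/
def tabInsert (x : ℕ) : List (List ℕ) → List (List ℕ)
  | [] => [[x]]
  | r :: rs =>
    match (rowInsert x r).2 with
    | none => (rowInsert x r).1 :: rs
    | some y => (rowInsert x r).1 :: tabInsert y rs

/-- The RSK insertion tableau `P(w)` of a word: insert the letters from left to right. -/
def insTab (w : List ℕ) : List (List ℕ) := w.foldl (fun T x => tabInsert x T) []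

/-- Index (from the top, starting with `0`) of the row of `T` containing the entry `v`. -/
def rowOf (T : List (List ℕ)) (v : ℕ) : ℕ := T.findIdx (fun r => v ∈ r)

/-- Descent set of a tableau with entries `1, …, n`: all `1 ≤ i < n` such that `i + 1` lies in a
row strictly below the row of `i`. -/
def desSet (n : ℕ) (T : List (List ℕ)) : Finset ℕ :=
  (Finset.Ico 1 n).filter (fun i => rowOf T i < rowOf T (i + 1))

theorem rowOf_cons (r : List ℕ) (rs : List (List ℕ)) (v : ℕ) :
    rowOf (r :: rs) v = if v ∈ r then 0 else rowOf rs v + 1 := by
  unfold rowOf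
  rw [List.findIdx_cons]
  by_cases h : v ∈ r <;> simp [h]

theorem rowOf_cons_mem {r : List ℕ} (rs : List (List ℕ)) {v : ℕ} (h : v ∈ r) :
    rowOf (r :: rs) v = 0 := by
  rw [rowOf_cons, if_pos h]

theorem rowOf_cons_not_mem {r : List ℕ} (rs : List (List ℕ)) {v : ℕ} (h : v ∉ r) :
    rowOf (r :: rs) v = rowOf rs v + 1 := by
  rw [rowOf_cons, if_neg h]

theorem rowInsert_perm (x : ℕ) (r : List ℕ) :
    ((rowInsert x r).1 ++ (rowInsert x r).2.toList).Perm (x :: r) := by
  induction r with
  | nil => simp [rowInsert]
  | cons y ys ih =>
    unfold rowInsert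
    split_ifs with h
    · simp only [Option.toList_some, List.cons_append]
      refine List.Perm.cons _ ?_
      exact (List.perm_append_comm (l₁ := ys) (l₂ := [y]))
    · simp only [List.cons_append]
      exact (ih.cons y).trans (List.Perm.swap _ _ _)

/-- Properties of the row insertion into a strictly increasing row. -/
theorem rowInsert_none {x : ℕ} {r : List ℕ} (h : (rowInsert x r).2 = none) :
    (rowInsert x r).1 = r ++ [x] ∧ ∀ y ∈ r, y ≤ x := by
  induction r with
  | nil => simp [rowInsert]
  | cons y ys ih =>
    unfold rowInsert at h ⊢
    split_ifs at h ⊢ with hxy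
    · have := ih h
      refine ⟨by simp [this.1], ?_⟩
      intro z hz
      rcases List.mem_cons.1 hz with rfl | hz
      · omega
      · exact this.2 z hz

theorem rowInsert_some {x y : ℕ} {r : List ℕ} (h : (rowInsert x r).2 = some y) :
    y ∈ r ∧ x < y := by
  induction r with
  | nil => simp [rowInsert] at h
  | cons z zs ih =>
    unfold rowInsert at h
    split_ifs at h with hxz
    · simp only [Option.some.injEq] at h
      subst h
      exact ⟨by simp, hxz⟩
    · have := ih h
      exact ⟨List.mem_cons_of_mem _ this.1, this.2⟩

theorem rowInsert_some_min {x y : ℕ} {r : List ℕ} (hr : r.Pairwise (· < ·))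
    (h : (rowInsert x r).2 = some y) : ∀ z ∈ r, z < y → z ≤ x := by
  induction r with
  | nil => simp
  | cons z zs ih =>
    unfold rowInsert at h
    rw [List.pairwise_cons] at hr
    split_ifs at h with hxz
    · simp only [Option.some.injEq] at h
      subst h
      intro w hw hwz
      rcases List.mem_cons.1 hw with rfl | hw
      · omega
      · have := hr.1 w hw
        omega
    · intro w hw hwy
      rcases List.mem_cons.1 hw with rfl | hw
      · omega
      · exact ih hr.2 h w hw hwy

theorem mem_rowInsert_fst (x : ℕ) (r : List ℕ) : x ∈ (rowInsert x r).1 := by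
  induction r with
  | nil => simp [rowInsert]
  | cons y ys ih =>
    unfold rowInsert
    split_ifs
    · simp
    · simp [ih]

theorem mem_of_mem_rowInsert {x z : ℕ} {r : List ℕ} (h : z ∈ (rowInsert x r).1) :
    z = x ∨ z ∈ r := by
  have := (rowInsert_perm x r).mem_iff (a := z)
  simp only [List.mem_append, List.mem_cons] at this
  exact this.1 (Or.inl h)

theorem rowInsert_sorted {x : ℕ} {r : List ℕ} (hr : r.Pairwise (· < ·)) (hx : x ∉ r) :
    (rowInsert x r).1.Pairwise (· < ·) := by
  induction r with
  | nil => simp [rowInsert]
  | cons y ys ih =>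
    unfold rowInsert
    rw [List.pairwise_cons] at hr
    simp only [List.mem_cons, not_or] at hx
    split_ifs with h
    · rw [List.pairwise_cons]
      exact ⟨fun z hz => lt_trans h (hr.1 z hz), hr.2⟩
    · rw [List.pairwise_cons]
      refine ⟨fun z hz => ?_, ih hr.2 hx.2⟩
      rcases mem_of_mem_rowInsert hz with rfl | hz
      · omega
      · exact hr.1 z hz

theorem tabInsert_cons_none {x : ℕ} {r : List ℕ} {rs : List (List ℕ)}
    (h : (rowInsert x r).2 = none) : tabInsert x (r :: rs) = (rowInsert x r).1 :: rs := by
  rw [tabInsert]
  simp [h]

theorem tabInsert_cons_some {x y : ℕ} {r : List ℕ} {rs : List (List ℕ)}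
    (h : (rowInsert x r).2 = some y) :
    tabInsert x (r :: rs) = (rowInsert x r).1 :: tabInsert y rs := by
  rw [tabInsert]
  simp [h]

theorem tabInsert_perm (x : ℕ) (T : List (List ℕ)) :
    (tabInsert x T).flatten.Perm (x :: T.flatten) := by
  induction T generalizing x with
  | nil => simp [tabInsert]
  | cons r rs ih =>
    rcases hb : (rowInsert x r).2 with _ | y
    · rw [tabInsert_cons_none hb]
      simp only [List.flatten_cons]
      have := rowInsert_perm x r
      rw [hb] at this
      simp only [Option.toList_none, List.append_nil] at this
      exact (this.append_right _)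
    · rw [tabInsert_cons_some hb]
      simp only [List.flatten_cons]
      have := rowInsert_perm x r
      rw [hb] at this
      simp only [Option.toList_some] at this
      have h2 := (ih y).append_left (rowInsert x r).1
      refine h2.trans ?_
      have h3 : ((rowInsert x r).1 ++ y :: rs.flatten) = ((rowInsert x r).1 ++ [y]) ++ rs.flatten := by
        simp
      rw [h3]
      exact this.append_right _

theorem tabInsert_sorted {x : ℕ} {T : List (List ℕ)} (hT : ∀ r ∈ T, r.Pairwise (· < ·))
    (hnd : T.flatten.Nodup) (hx : x ∉ T.flatten) :
    ∀ r ∈ tabInsert x T, r.Pairwise (· < ·) := by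
  induction T generalizing x with
  | nil => simp [tabInsert]
  | cons r rs ih =>
    simp only [List.flatten_cons, List.mem_append, not_or] at hx
    have hr := hT r (by simp)
    have hrs : ∀ r ∈ rs, r.Pairwise (· < ·) := fun s hs => hT s (by simp [hs])
    simp only [List.flatten_cons, List.nodup_append'] at hnd
    rcases hb : (rowInsert x r).2 with _ | y
    · rw [tabInsert_cons_none hb]
      intro s hs
      rcases List.mem_cons.1 hs with rfl | hs
      · exact rowInsert_sorted hr hx.1
      · exact hrs s hs
    · rw [tabInsert_cons_some hb]
      have hy := (rowInsert_some hb).1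
      intro s hs
      rcases List.mem_cons.1 hs with rfl | hs
      · exact rowInsert_sorted hr hx.1
      · exact ih hrs hnd.2.1 (hnd.2.2 hy) s hs

/-- entries of the first row after insertion, bumping case -/
theorem mem_rowInsert_some {x y z : ℕ} {r : List ℕ} (hr : r.Pairwise (· < ·)) (hx : x ∉ r)
    (h : (rowInsert x r).2 = some y) :
    z ∈ (rowInsert x r).1 ↔ z = x ∨ (z ∈ r ∧ z ≠ y) := by
  have hp := rowInsert_perm x r
  rw [h] at hp
  simp only [Option.toList_some] at hp
  have hnd : (x :: r).Nodup := by
    rw [List.nodup_cons]
    exact ⟨hx, hr.imp (fun h => h.ne)⟩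
  have hnd2 := hp.nodup_iff.2 hnd
  have hy := rowInsert_some h
  have hmem := hp.mem_iff (a := z)
  simp only [List.mem_append, List.mem_cons, List.mem_nil_iff, or_false] at hmem
  rw [List.nodup_append'] at hnd2
  constructor
  · intro hz
    rcases hmem.1 (Or.inl hz) with h1 | h1
    · exact Or.inl h1
    · refine Or.inr ⟨h1, ?_⟩
      rintro rfl
      exact hnd2.2.2 hz (by simp)
  · rintro (h1 | ⟨h1, h2⟩)
    · subst h1
      exact mem_rowInsert_fst _ _
    · rcases hmem.2 (Or.inr h1) with h3 | h3
      · exact h3
      · exact absurd h3 h2

theorem mem_rowInsert_none {x z : ℕ} {r : List ℕ} (h : (rowInsert x r).2 = none) :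
    z ∈ (rowInsert x r).1 ↔ z = x ∨ z ∈ r := by
  rw [(rowInsert_none h).1]
  simp only [List.mem_append, List.mem_cons, List.mem_nil_iff, or_false]
  tauto

theorem rowOf_tabInsert_self (x : ℕ) (T : List (List ℕ)) : rowOf (tabInsert x T) x = 0 := by
  cases T with
  | nil =>
    rw [tabInsert, rowOf_cons_mem]
    simp
  | cons r rs =>
    rcases hb : (rowInsert x r).2 with _ | y
    · rw [tabInsert_cons_none hb, rowOf_cons_mem _ (mem_rowInsert_fst _ _)]
    · rw [tabInsert_cons_some hb, rowOf_cons_mem _ (mem_rowInsert_fst _ _)]

/-- inserting `v` forces `v + 1` out of the first row -/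
theorem rowOf_tabInsert_succ {v : ℕ} {T : List (List ℕ)} (hT : ∀ r ∈ T, r.Pairwise (· < ·))
    (hx : v ∉ T.flatten) : 0 < rowOf (tabInsert v T) (v + 1) := by
  cases T with
  | nil =>
    rw [tabInsert, rowOf_cons_not_mem]
    · omega
    · simp
  | cons r rs =>
    simp only [List.flatten_cons, List.mem_append, not_or] at hx
    have hr := hT r (by simp)
    rcases hb : (rowInsert v r).2 with _ | y
    · have hv : v + 1 ∉ (rowInsert v r).1 := by
        rw [mem_rowInsert_none hb]
        rintro (h | h)
        · omega
        · have := (rowInsert_none hb).2 _ h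
          omega
      rw [tabInsert_cons_none hb, rowOf_cons_not_mem _ hv]
      omega
    · have hv : v + 1 ∉ (rowInsert v r).1 := by
        rw [mem_rowInsert_some hr hx.1 hb]
        rintro (h | ⟨h, h'⟩)
        · omega
        · have h1 := (rowInsert_some hb).2
          have h2 := rowInsert_some_min hr hb _ h
          by_cases h3 : v + 1 < y
          · have := h2 h3
            omega
          · omega
      rw [tabInsert_cons_some hb, rowOf_cons_not_mem _ hv]
      omega

/-- Insertion of another letter preserves `row (v+1) ≤ row v`. -/
theorem preserve_le {v x : ℕ} {T : List (List ℕ)} (hT : ∀ r ∈ T, r.Pairwise (· < ·))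
    (hnd : T.flatten.Nodup) (hx : x ∉ T.flatten) (hv : v ∈ T.flatten) (hv1 : v + 1 ∈ T.flatten)
    (hA : rowOf T (v + 1) ≤ rowOf T v) :
    rowOf (tabInsert x T) (v + 1) ≤ rowOf (tabInsert x T) v := by
  induction T generalizing x with
  | nil => simp at hv
  | cons r rs ih =>
    have hxv : x ≠ v := fun h => hx (h ▸ hv)
    have hxv1 : x ≠ v + 1 := fun h => hx (h ▸ hv1)
    simp only [List.flatten_cons, List.mem_append, not_or] at hx
    have hr := hT r (by simp)
    have hrs : ∀ r ∈ rs, r.Pairwise (· < ·) := fun s hs => hT s (by simp [hs])
    simp only [List.flatten_cons, List.nodup_append'] at hnd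
    rcases hb : (rowInsert x r).2 with _ | y
    · rw [tabInsert_cons_none hb]
      have key : ∀ z, z ≠ x → rowOf ((rowInsert x r).1 :: rs) z = rowOf (r :: rs) z := by
        intro z hz
        rw [rowOf_cons, rowOf_cons]
        have : z ∈ (rowInsert x r).1 ↔ z ∈ r := by
          rw [mem_rowInsert_none hb]
          tauto
        simp only [this]
      rw [key _ hxv.symm, key _ hxv1.symm]
      exact hA
    · rw [tabInsert_cons_some hb]
      have hy := rowInsert_some hb
      have hmin := rowInsert_some_min hr hb
      have hm : ∀ z, z ∈ (rowInsert x r).1 ↔ z = x ∨ (z ∈ r ∧ z ≠ y) :=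
        fun z => mem_rowInsert_some hr hx.1 hb
      by_cases h1 : v + 1 ∈ r
      · by_cases h1y : v + 1 = y
        · -- `v + 1` is bumped; then `v ∉ r`
          have hvr : v ∉ r := by
            intro h
            have := hmin v h (by omega)
            omega
          have hv' : v ∉ (rowInsert x r).1 := by
            rw [hm]
            rintro (h | h)
            · exact hxv h.symm
            · exact hvr h.1
          have hv1' : v + 1 ∉ (rowInsert x r).1 := by
            rw [hm]
            rintro (h | h)
            · exact hxv1 h.symm
            · exact h.2 h1y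
          rw [rowOf_cons_not_mem _ hv', rowOf_cons_not_mem _ hv1', ← h1y, rowOf_tabInsert_self]
          omega
        · have hv1' : v + 1 ∈ (rowInsert x r).1 := by
            rw [hm]
            exact Or.inr ⟨h1, h1y⟩
          rw [rowOf_cons_mem _ hv1']
          omega
      · have hvr : v ∉ r := by
          intro h
          rw [rowOf_cons_mem _ h, rowOf_cons_not_mem _ h1] at hA
          omega
        have hv' : v ∉ (rowInsert x r).1 := by
          rw [hm]
          rintro (h | h)
          · exact hxv h.symm
          · exact hvr h.1
        have hv1' : v + 1 ∉ (rowInsert x r).1 := by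
          rw [hm]
          rintro (h | h)
          · exact hxv1 h.symm
          · exact h1 h.1
        rw [rowOf_cons_not_mem _ hvr, rowOf_cons_not_mem _ h1] at hA
        rw [rowOf_cons_not_mem _ hv', rowOf_cons_not_mem _ hv1']
        have hv2 : v ∈ rs.flatten := by
          simp only [List.flatten_cons, List.mem_append] at hv
          exact hv.resolve_left hvr
        have hv3 : v + 1 ∈ rs.flatten := by
          simp only [List.flatten_cons, List.mem_append] at hv1
          exact hv1.resolve_left h1
        have := ih hrs hnd.2.1 (hnd.2.2 hy.1) hv2 hv3 (by omega)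
        omega

/-- Insertion of another letter preserves `row v < row (v+1)`. -/
theorem preserve_lt {v x : ℕ} {T : List (List ℕ)} (hT : ∀ r ∈ T, r.Pairwise (· < ·))
    (hnd : T.flatten.Nodup) (hx : x ∉ T.flatten) (hv : v ∈ T.flatten) (hv1 : v + 1 ∈ T.flatten)
    (hB : rowOf T v < rowOf T (v + 1)) :
    rowOf (tabInsert x T) v < rowOf (tabInsert x T) (v + 1) := by
  induction T generalizing x with
  | nil => simp at hv
  | cons r rs ih =>
    have hxv : x ≠ v := fun h => hx (h ▸ hv)
    have hxv1 : x ≠ v + 1 := fun h => hx (h ▸ hv1)
    simp only [List.flatten_cons, List.mem_append, not_or] at hx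
    have hr := hT r (by simp)
    have hrs : ∀ r ∈ rs, r.Pairwise (· < ·) := fun s hs => hT s (by simp [hs])
    simp only [List.flatten_cons, List.nodup_append'] at hnd
    rcases hb : (rowInsert x r).2 with _ | y
    · rw [tabInsert_cons_none hb]
      have key : ∀ z, z ≠ x → rowOf ((rowInsert x r).1 :: rs) z = rowOf (r :: rs) z := by
        intro z hz
        rw [rowOf_cons, rowOf_cons]
        have : z ∈ (rowInsert x r).1 ↔ z ∈ r := by
          rw [mem_rowInsert_none hb]
          tauto
        simp only [this]
      rw [key _ hxv.symm, key _ hxv1.symm]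
      exact hB
    · rw [tabInsert_cons_some hb]
      have hy := rowInsert_some hb
      have hm : ∀ z, z ∈ (rowInsert x r).1 ↔ z = x ∨ (z ∈ r ∧ z ≠ y) :=
        fun z => mem_rowInsert_some hr hx.1 hb
      have h1 : v + 1 ∉ r := by
        intro h
        rw [rowOf_cons_mem _ h] at hB
        omega
      have hv1' : v + 1 ∉ (rowInsert x r).1 := by
        rw [hm]
        rintro (h | h)
        · exact hxv1 h.symm
        · exact h1 h.1
      have hv3 : v + 1 ∈ rs.flatten := by
        simp only [List.flatten_cons, List.mem_append] at hv1
        exact hv1.resolve_left h1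
      by_cases h2 : v ∈ r
      · by_cases h2y : v = y
        · have hv' : v ∉ (rowInsert x r).1 := by
            rw [hm]
            rintro (h | h)
            · exact hxv h.symm
            · exact h.2 h2y
          rw [rowOf_cons_not_mem _ hv', rowOf_cons_not_mem _ hv1', ← h2y, rowOf_tabInsert_self]
          have := rowOf_tabInsert_succ (v := v) hrs (hnd.2.2 h2)
          omega
        · have hv' : v ∈ (rowInsert x r).1 := by
            rw [hm]
            exact Or.inr ⟨h2, h2y⟩
          rw [rowOf_cons_mem _ hv', rowOf_cons_not_mem _ hv1']
          omega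
      · have hv' : v ∉ (rowInsert x r).1 := by
          rw [hm]
          rintro (h | h)
          · exact hxv h.symm
          · exact h2 h.1
        rw [rowOf_cons_not_mem _ h2, rowOf_cons_not_mem _ h1] at hB
        rw [rowOf_cons_not_mem _ hv', rowOf_cons_not_mem _ hv1']
        have hv2 : v ∈ rs.flatten := by
          simp only [List.flatten_cons, List.mem_append] at hv
          exact hv.resolve_left h2
        have := ih hrs hnd.2.1 (hnd.2.2 hy.1) hv2 hv3 (by omega)
        omega

theorem insTab_append (L : List ℕ) (x : ℕ) : insTab (L ++ [x]) = tabInsert x (insTab L) := by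
  unfold insTab
  rw [List.foldl_append]
  rfl

theorem insTab_perm (L : List ℕ) : (insTab L).flatten.Perm L := by
  induction L using List.reverseRecOn with
  | nil => simp [insTab]
  | append_singleton L x ih =>
    rw [insTab_append]
    refine (tabInsert_perm x _).trans ?_
    refine (ih.cons x).trans ?_
    exact (List.perm_append_comm (l₁ := [x]) (l₂ := L))

theorem insTab_sorted {L : List ℕ} (hL : L.Nodup) : ∀ r ∈ insTab L, r.Pairwise (· < ·) := by
  induction L using List.reverseRecOn with
  | nil => simp [insTab]
  | append_singleton L x ih =>
    rw [List.nodup_append'] at hL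
    rw [insTab_append]
    have hp := insTab_perm L
    refine tabInsert_sorted (ih hL.1) (hp.nodup_iff.2 hL.1) ?_
    rw [hp.mem_iff]
    intro h
    exact hL.2.2 h (by simp)

/-- **Descents of the insertion tableau are inverse descents.** -/
theorem rowOf_insTab {L : List ℕ} (hL : L.Nodup) {v : ℕ} (hv : v ∈ L) (hv1 : v + 1 ∈ L) :
    rowOf (insTab L) v < rowOf (insTab L) (v + 1) ↔ L.idxOf (v + 1) < L.idxOf v := by
  induction L using List.reverseRecOn with
  | nil => simp at hv
  | append_singleton L x ih =>
    have hnd := hL
    rw [List.nodup_append'] at hL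
    rw [insTab_append]
    have hp := insTab_perm L
    have hxL : x ∉ L := fun h => hL.2.2 h (by simp)
    have hxT : x ∉ (insTab L).flatten := by
      rw [hp.mem_iff]
      exact hxL
    have hs := insTab_sorted hL.1
    have hndT := hp.nodup_iff.2 hL.1
    by_cases h1 : x = v + 1
    · subst h1
      have hvL : v ∈ L := by
        simpa using hv
      rw [rowOf_tabInsert_self]
      simp only [Nat.not_lt_zero, false_iff, not_lt]
      rw [List.idxOf_append_of_mem hvL, List.idxOf_append_of_notMem hxL]
      have := List.idxOf_lt_length_of_mem hvL
      omega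
    · by_cases h2 : x = v
      · subst h2
        have hvL : x + 1 ∈ L := by
          simpa using hv1
        rw [rowOf_tabInsert_self]
        have := rowOf_tabInsert_succ (v := x) hs hxT
        simp only [this, true_iff]
        rw [List.idxOf_append_of_mem hvL, List.idxOf_append_of_notMem hxL]
        have := List.idxOf_lt_length_of_mem hvL
        omega
      · have hvL : v ∈ L := by
          have := hv
          simp only [List.mem_append, List.mem_singleton] at this
          exact this.resolve_right (fun h => h2 h.symm)
        have hvL1 : v + 1 ∈ L := by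
          have := hv1
          simp only [List.mem_append, List.mem_singleton] at this
          exact this.resolve_right (fun h => h1 h.symm)
        rw [List.idxOf_append_of_mem hvL, List.idxOf_append_of_mem hvL1, ← ih hL.1 hvL hvL1]
        constructor
        · intro h
          by_contra hc
          push Not at hc
          have := preserve_le hs hndT hxT (hp.mem_iff.2 hvL) (hp.mem_iff.2 hvL1) hc
          omega
        · intro h
          exact preserve_lt hs hndT hxT (hp.mem_iff.2 hvL) (hp.mem_iff.2 hvL1) h

end R134.RJ
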