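import Pool.Agent.R134.RJ1

/-!
# Refilling a permutation along a set partition; fundamental quasisymmetric functions
-/

namespace R134.RJ

open Finset

variable {n : ℕ}

/-- `refill β π`: for each block `B` of the set partition `β` keep the set of positions occupied
by the elements of `B` in `π` and refill those positions with the elements of `B` in increasing
order.  The entry at position `p` is the `k`-th smallest (counting from `0`) element of the block
`B` of `π p`, where `k` is the number of positions `q < p` with `π q ∈ B`. -/
def refill (β : Finpartition (univ : Finset (Fin n))) (π : Equiv.Perm (Fin n)) (p : Fin n) :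
    Fin n :=
  ((β.part (π p)).sort).getD
    ((univ.filter (fun q => q < p ∧ π q ∈ β.part (π p))).card) (π p)

/-- One-line notation, with letters `1, …, n`. -/
def word (f : Fin n → Fin n) : List ℕ := List.ofFn (fun p => (f p : ℕ) + 1)

/-- The content (exponent vector) of a word. -/
noncomputable def content (u : Fin n → ℕ) : ℕ →₀ ℕ := ∑ j, Finsupp.single (u j) 1

theorem rank_lt (β : Finpartition (univ : Finset (Fin n))) (π : Equiv.Perm (Fin n)) (p : Fin n) :
    (univ.filter (fun q => q < p ∧ π q ∈ β.part (π p))).card < ((β.part (π p)).sort).length := by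
  rw [Finset.length_sort]
  have h1 : (univ.filter (fun q => π q ∈ β.part (π p))).card = (β.part (π p)).card := by
    apply Finset.card_bij (fun q _ => π q)
    · intro a ha
      exact (Finset.mem_filter.1 ha).2
    · intro a _ b _ h
      exact π.injective h
    · intro b hb
      exact ⟨π.symm b, by simp [hb], by simp⟩
  rw [← h1]
  apply Finset.card_lt_card
  rw [Finset.ssubset_iff_of_subset]
  · refine ⟨p, ?_, ?_⟩
    · simp [β.mem_part]
    · simp
  · intro q hq
    simp only [Finset.mem_filter, Finset.mem_univ, true_and] at hq ⊢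
    exact hq.2

theorem refill_mem (β : Finpartition (univ : Finset (Fin n))) (π : Equiv.Perm (Fin n))
    (p : Fin n) : refill β π p ∈ β.part (π p) := by
  unfold refill
  rw [List.getD_eq_getElem _ _ (rank_lt β π p)]
  have := List.getElem_mem (rank_lt β π p)
  rwa [Finset.mem_sort] at this

theorem refill_lt (β : Finpartition (univ : Finset (Fin n))) (π : Equiv.Perm (Fin n))
    {p q : Fin n} (hpq : p < q) (h : π q ∈ β.part (π p)) : refill β π p < refill β π q := by
  have hB : β.part (π q) = β.part (π p) := by
    exact (β.mem_part_iff_part_eq_part (Finset.mem_univ _) (Finset.mem_univ _)).1 h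
  have hq := rank_lt β π q
  have hp := rank_lt β π p
  unfold refill
  rw [List.getD_eq_getElem _ _ hp, List.getD_eq_getElem _ _ hq]
  simp only [hB] at hq ⊢
  have hs : ((β.part (π p)).sort).Pairwise (· < ·) := by
    exact (Finset.sortedLT_sort (β.part (π p))).pairwise
  rw [List.pairwise_iff_getElem] at hs
  apply hs
  apply Finset.card_lt_card
  rw [Finset.ssubset_iff_of_subset]
  · refine ⟨p, ?_, ?_⟩
    · simp [β.mem_part, hpq]
    · simp
  · intro r hr
    simp only [Finset.mem_filter, Finset.mem_univ, true_and] at hr ⊢
    exact ⟨hr.1.trans hpq, hr.2⟩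

/-- The kernel partition of a function. -/
def kerPart {N : ℕ} (φ : Fin n → Fin N) : Finpartition (univ : Finset (Fin n)) :=
  haveI : DecidableRel (Setoid.ker φ) := fun a b => decEq (φ a) (φ b)
  Finpartition.ofSetoid (Setoid.ker φ)

theorem mem_part_kerPart {N : ℕ} (φ : Fin n → Fin N) (a b : Fin n) :
    b ∈ (kerPart φ).part a ↔ φ a = φ b := by
  letI : DecidableRel (Setoid.ker φ) := fun a b => decEq (φ a) (φ b)
  unfold kerPart
  exact Finpartition.mem_part_ofSetoid_iff_rel

/-- The refilled permutation as a composition of sorting permutations. -/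
def fillPerm {N : ℕ} (φ : Fin n → Fin N) (π : Equiv.Perm (Fin n)) : Equiv.Perm (Fin n) :=
  (Tuple.sort (φ ∘ π)).symm.trans (Tuple.sort φ)

theorem refill_kerPart {N : ℕ} (φ : Fin n → Fin N) (π : Equiv.Perm (Fin n)) :
    refill (kerPart φ) π = ⇑(fillPerm φ π) := by
  set r := refill (kerPart φ) π with hr
  have h1 : ∀ p, φ (r p) = φ (π p) := fun p =>
    ((mem_part_kerPart φ (π p) (r p)).1 (refill_mem (kerPart φ) π p)).symm
  have h2 : ∀ p q, p < q → φ (π p) = φ (π q) → r p < r q := fun p q hpq h =>
    refill_lt (kerPart φ) π hpq ((mem_part_kerPart φ (π p) (π q)).2 h)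
  have hinj : Function.Injective r := by
    intro p q hpq
    by_contra hne
    rcases lt_or_gt_of_ne hne with h | h
    · have : φ (π p) = φ (π q) := by rw [← h1, ← h1, hpq]
      have := h2 p q h this
      rw [hpq] at this
      exact lt_irrefl _ this
    · have : φ (π q) = φ (π p) := by rw [← h1, ← h1, hpq]
      have := h2 q p h this
      rw [hpq] at this
      exact lt_irrefl _ this
  let ρ : Equiv.Perm (Fin n) := Equiv.ofBijective r (Finite.injective_iff_bijective.1 hinj)
  have hρ : ∀ p, ρ p = r p := fun p => rfl
  have key : (Tuple.sort φ).trans ρ.symm = Tuple.sort (φ ∘ π) := by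
    rw [Tuple.eq_sort_iff]
    have h3 : ∀ i, (φ ∘ π) (((Tuple.sort φ).trans ρ.symm) i) = φ (Tuple.sort φ i) := by
      intro i
      simp only [Equiv.trans_apply, Function.comp]
      rw [← h1, ← hρ, Equiv.apply_symm_apply]
    constructor
    · have : (φ ∘ π) ∘ ((Tuple.sort φ).trans ρ.symm) = φ ∘ Tuple.sort φ := by
        funext i
        exact h3 i
      rw [this]
      exact Tuple.monotone_sort φ
    · intro i j hij h
      have h4 : φ (Tuple.sort φ i) = φ (Tuple.sort φ j) := by rw [← h3, ← h3, h]
      have h5 := (Tuple.eq_sort_iff (f := φ) (σ := Tuple.sort φ)).1 rfl |>.2 i j hij h4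
      by_contra hc
      push Not at hc
      rcases hc.eq_or_lt with hc | hc
      · have : Tuple.sort φ j = Tuple.sort φ i := ρ.symm.injective hc
        exact hij.ne' ((Tuple.sort φ).injective this)
      · have := h2 _ _ hc h.symm
        rw [← hρ, ← hρ] at this
        simp only [Equiv.trans_apply, Equiv.apply_symm_apply] at this
        exact lt_asymm h5 this
  funext p
  have : fillPerm φ π = ρ := by
    unfold fillPerm
    rw [← key]
    ext x
    simp
  rw [this]
  exact (hρ p).symm

/-- `word σ` for a permutation. -/
theorem word_nodup (σ : Equiv.Perm (Fin n)) : (word σ).Nodup := by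
  unfold word
  rw [List.nodup_ofFn]
  intro a b h
  simp only [Nat.add_right_cancel_iff] at h
  exact σ.injective (Fin.ext h)

theorem idxOf_word (σ : Equiv.Perm (Fin n)) (v : Fin n) :
    (word σ).idxOf ((v : ℕ) + 1) = (σ.symm v : ℕ) := by
  have hl : (σ.symm v : ℕ) < (word σ).length := by simp [word]
  have h := (word_nodup σ).idxOf_getElem (σ.symm v : ℕ) hl
  have h2 : (word σ)[(σ.symm v : ℕ)] = (v : ℕ) + 1 := by
    simp [word]
  rw [h2] at h
  exact h

theorem mem_word (σ : Equiv.Perm (Fin n)) (v : Fin n) : ((v : ℕ) + 1) ∈ word σ := by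
  unfold word
  rw [List.mem_ofFn]
  exact ⟨σ.symm v, by simp⟩

/-- Membership in the descent set of the insertion tableau of a permutation. -/
theorem mem_desSet (σ : Equiv.Perm (Fin n)) (j k : Fin n) (hjk : (k : ℕ) = j + 1) :
    (k : ℕ) ∈ desSet n (insTab (word σ)) ↔ σ.symm k < σ.symm j := by
  unfold desSet
  rw [Finset.mem_filter, Finset.mem_Ico]
  have h1 : 1 ≤ (k : ℕ) := by omega
  have h2 := rowOf_insTab (word_nodup σ) (v := (j : ℕ) + 1) (mem_word σ j)
    (by rw [← hjk]; exact mem_word σ k)
  rw [idxOf_word] at h2
  have h3 : (word σ).idxOf ((j : ℕ) + 1 + 1) = (σ.symm k : ℕ) := by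
    rw [← hjk]
    exact idxOf_word σ k
  rw [h3] at h2
  rw [hjk, h2]
  simp only [Fin.lt_def]
  constructor
  · intro h
    exact h.2
  · intro h
    exact ⟨⟨by omega, by have := k.2; omega⟩, h⟩

/-- The set of index sequences contributing to the fundamental quasisymmetric function. -/
def FundSeq (n : ℕ) (S : Finset ℕ) (e : ℕ →₀ ℕ) : Type :=
  {i : Fin n → ℕ // Monotone i ∧ (∀ j k : Fin n, (k : ℕ) = j + 1 → (k : ℕ) ∈ S → i j < i k) ∧
    content i = e}

theorem fund_cond (σ : Equiv.Perm (Fin n)) (i : Fin n → ℕ) :
    (Monotone i ∧ (∀ j k : Fin n, (k : ℕ) = j + 1 → (k : ℕ) ∈ desSet n (insTab (word σ)) →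
      i j < i k)) ↔ σ.symm = Tuple.sort (i ∘ σ) := by
  rw [Tuple.eq_sort_iff]
  have h0 : ((i ∘ σ) ∘ σ.symm) = i := by
    funext x
    simp
  rw [h0]
  refine and_congr_right (fun hm => ?_)
  constructor
  · intro h a b hab hEq
    simp only [Function.comp, Equiv.apply_symm_apply] at hEq
    -- induction on the distance
    have key : ∀ d : ℕ, ∀ b : Fin n, (b : ℕ) = a + 1 + d → i a = i b → σ.symm a < σ.symm b := by
      intro d
      induction d with
      | zero =>
        intro b hb hE
        by_contra hc
        push Not at hc
        have hne : σ.symm b ≠ σ.symm a := by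
          intro h'
          have := σ.symm.injective h'
          subst this
          omega
        have := h a b (by omega) ((mem_desSet σ a b (by omega)).2 (lt_of_le_of_ne hc hne))
        omega
      | succ d ih =>
        intro b hb hE
        have hlt : (a : ℕ) + 1 + d < n := by
          have := b.2
          omega
        let c : Fin n := ⟨a + 1 + d, hlt⟩
        have hac : a ≤ c := by
          rw [Fin.le_def]
          simp only [c]
          omega
        have hcb : c ≤ b := by
          rw [Fin.le_def]
          simp only [c]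
          omega
        have h1 := hm hac
        have h2 := hm hcb
        have h3 := ih c rfl (by omega)
        refine h3.trans ?_
        by_contra hc
        push Not at hc
        have hne : σ.symm b ≠ σ.symm c := by
          intro h'
          have := σ.symm.injective h'
          rw [Fin.ext_iff] at this
          simp only [c] at this
          omega
        have hbc : (b : ℕ) = c + 1 := by
          simp only [c]
          omega
        have := h c b hbc ((mem_desSet σ c b hbc).2 (lt_of_le_of_ne hc hne))
        omega
    have hab' : (a : ℕ) < b := hab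
    exact key (b - a - 1) b (by omega) hEq
  · intro h j k hjk hk
    rw [mem_desSet σ j k hjk] at hk
    have hjk' : j < k := by
      rw [Fin.lt_def]
      omega
    have h1 := hm hjk'.le
    rcases h1.lt_or_eq with h2 | h2
    · exact h2
    · have := h j k hjk' (by simpa using h2)
      exact absurd hk (not_lt.2 this.le)

theorem content_comp (σ : Equiv.Perm (Fin n)) (u : Fin n → ℕ) :
    content (u ∘ σ) = content u := by
  unfold content
  exact Equiv.sum_comp σ (fun j => Finsupp.single (u j) 1)

/-- The coefficient of `x^e` in `F_{Des P(σ)}` counts the words of content `e` whose standardisation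
is `σ`. -/
def fundEquiv (σ : Equiv.Perm (Fin n)) (e : ℕ →₀ ℕ) :
    FundSeq n (desSet n (insTab (word σ))) e ≃
      {u : Fin n → ℕ // content u = e ∧ σ.symm = Tuple.sort u} where
  toFun i := ⟨i.1 ∘ σ, by rw [content_comp]; exact i.2.2.2,
    (fund_cond σ i.1).1 ⟨i.2.1, i.2.2.1⟩⟩
  invFun u := ⟨u.1 ∘ σ.symm, by
    have h := (fund_cond σ (u.1 ∘ σ.symm)).2 (by
      have : (u.1 ∘ σ.symm) ∘ σ = u.1 := by
        funext x
        simp
      rw [this]
      exact u.2.2)
    exact ⟨h.1, h.2, by rw [content_comp]; exact u.2.1⟩⟩
  left_inv i := by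
    apply Subtype.ext
    funext x
    simp
  right_inv u := by
    apply Subtype.ext
    funext x
    simp

end R134.RJ
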