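import Pool.Agent.R134.RJ2

/-!
# The counting argument
-/

namespace R134.RJ

open Finset

variable {n N : ℕ}

theorem sort_symm_lt (u : Fin n → ℕ) {p q : Fin n} (hpq : p < q) (h : u p ≤ u q) :
    (Tuple.sort u).symm p < (Tuple.sort u).symm q := by
  by_contra hc
  push Not at hc
  rcases hc.eq_or_lt with hc | hc
  · exact hpq.ne ((Tuple.sort u).symm.injective hc.symm)
  · have h1 := Tuple.monotone_sort u hc.le
    simp only [Function.comp, Equiv.apply_symm_apply] at h1
    have h2 := ((Tuple.eq_sort_iff (f := u) (σ := Tuple.sort u)).1 rfl).2 _ _ hc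
      (by simp only [Equiv.apply_symm_apply]; exact le_antisymm h1 h)
    simp only [Equiv.apply_symm_apply] at h2
    exact lt_asymm h2 hpq

/-- Pairs of functions whose pair is lexicographically weakly increasing. -/
def LexMono (g1 : Fin n → Fin N) (g2 : Fin n → ℕ) : Prop :=
  Monotone g1 ∧ ∀ i j, i < j → g1 i = g1 j → g2 i ≤ g2 j

theorem fill_constraint (φ : Fin n → Fin N) (π : Equiv.Perm (Fin n)) (u : Fin n → ℕ) :
    (fillPerm φ π).symm = Tuple.sort u ↔
      ∀ i, Tuple.sort (φ ∘ π) i = Tuple.sort u (Tuple.sort φ i) := by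
  unfold fillPerm
  constructor
  · intro h i
    have := congrArg (fun e : Equiv.Perm (Fin n) => e (Tuple.sort φ i)) h
    simpa using this
  · intro h
    ext x
    have := h ((Tuple.sort φ).symm x)
    simp only [Equiv.apply_symm_apply] at this
    rw [← this]
    simp

/-- The main bijection. -/
def mainEquiv (n N : ℕ) (e : ℕ →₀ ℕ) :
    {x : (Equiv.Perm (Fin n) × (Fin n → Fin N)) × (Fin n → ℕ) //
      content x.2 = e ∧ (fillPerm x.1.2 x.1.1).symm = Tuple.sort x.2} ≃
    Equiv.Perm (Fin n) × {g : (Fin n → Fin N) × (Fin n → ℕ) // LexMono g.1 g.2 ∧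
      content g.2 = e} where
  toFun x :=
    (((Tuple.sort (x.1.1.2 ∘ x.1.1.1)).trans x.1.1.1).trans (Tuple.sort x.1.2),
      ⟨((x.1.1.2 ∘ x.1.1.1) ∘ Tuple.sort (x.1.1.2 ∘ x.1.1.1),
        x.1.2 ∘ Tuple.sort (x.1.1.2 ∘ x.1.1.1)), by
        obtain ⟨⟨⟨π, φ⟩, u⟩, hu, hC⟩ := x
        simp only at hu hC ⊢
        rw [fill_constraint] at hC
        refine ⟨⟨Tuple.monotone_sort _, ?_⟩, ?_⟩
        · intro i j hij hg
          rw [Tuple.comp_perm_comp_sort_eq_comp_sort] at hg
          have h1 := ((Tuple.eq_sort_iff (f := φ) (σ := Tuple.sort φ)).1 rfl).2 i j hij hg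
          have h2 := Tuple.monotone_sort u h1.le
          simp only [Function.comp] at h2 ⊢
          rw [← hC, ← hC] at h2
          exact h2
        · rw [content_comp]
          exact hu⟩)
  invFun y :=
    ⟨((((Tuple.sort (y.2.1.1 ∘ y.1.symm)).symm.trans y.1).trans
        (Tuple.sort (y.2.1.2 ∘ (Tuple.sort (y.2.1.1 ∘ y.1.symm)).symm)).symm,
        (y.2.1.1 ∘ y.1.symm) ∘
          Tuple.sort (y.2.1.2 ∘ (Tuple.sort (y.2.1.1 ∘ y.1.symm)).symm)),
        y.2.1.2 ∘ (Tuple.sort (y.2.1.1 ∘ y.1.symm)).symm), by
      obtain ⟨κ, ⟨g1, g2⟩, ⟨hm, hlex⟩, hcont⟩ := y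
      simp only at hm hlex hcont ⊢
      set ψ := g1 ∘ κ.symm with hψ
      set s := Tuple.sort ψ with hs
      set u := g2 ∘ s.symm with hu
      have hψκ : ψ ∘ κ = g1 := by
        funext x
        simp [hψ]
      have hψs : ψ ∘ s = g1 := by
        rw [← hψκ, hs]
        symm
        rw [Tuple.comp_sort_eq_comp_iff_monotone, hψκ]
        exact hm
      have hφπ : (ψ ∘ Tuple.sort u) ∘ ((s.symm.trans κ).trans (Tuple.sort u).symm) = ψ := by
        funext p
        simp only [Function.comp, Equiv.trans_apply, Equiv.apply_symm_apply]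
        have h1 := congrFun hψκ (s.symm p)
        have h2 := congrFun hψs (s.symm p)
        simp only [Function.comp, Equiv.apply_symm_apply] at h1 h2
        rw [h1, ← h2]
      refine ⟨?_, ?_⟩
      · rw [hu]
        rw [content_comp]
        exact hcont
      · rw [fill_constraint, hφπ, ← hs]
        have key : s.trans (Tuple.sort u).symm = Tuple.sort (ψ ∘ Tuple.sort u) := by
          rw [Tuple.eq_sort_iff]
          have h3 : (ψ ∘ Tuple.sort u) ∘ (s.trans (Tuple.sort u).symm) = g1 := by
            rw [← hψs]
            funext x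
            simp
          constructor
          · rw [h3]
            exact hm
          · intro i j hij hE
            have h4 : g1 i = g1 j := by
              rw [← h3]
              exact hE
            have h5 : ψ (s i) = ψ (s j) := by
              have h6 := congrFun hψs i
              have h7 := congrFun hψs j
              simp only [Function.comp] at h6 h7
              rw [h6, h7, h4]
            have h8 := ((Tuple.eq_sort_iff (f := ψ) (σ := s)).1 hs).2 i j hij h5
            simp only [Equiv.trans_apply]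
            apply sort_symm_lt u h8
            have := hlex i j hij h4
            simp only [hu, Function.comp, Equiv.symm_apply_apply]
            exact this
        intro i
        rw [← key]
        simp⟩
  left_inv x := by
    obtain ⟨⟨⟨π, φ⟩, u⟩, hu, hC⟩ := x
    simp only at hu hC
    rw [fill_constraint] at hC
    apply Subtype.ext
    simp only
    set s := Tuple.sort (φ ∘ π) with hs
    have hψ : ((φ ∘ π) ∘ s) ∘ ((s.trans π).trans (Tuple.sort u)).symm = φ ∘ π := by
      have h1 := Tuple.comp_perm_comp_sort_eq_comp_sort (f := φ) (σ := π)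
      rw [← hs] at h1
      rw [h1]
      funext x
      simp only [Function.comp, Equiv.symm_trans_apply]
      -- x = s i
      obtain ⟨i, rfl⟩ := s.surjective x
      rw [hC i, Equiv.symm_apply_apply, ← hC i]
      have h2 : φ (Tuple.sort φ (s.symm (π.symm (Tuple.sort φ i)))) = φ (Tuple.sort φ i) := by
        have := congrFun h1 (s.symm (π.symm (Tuple.sort φ i)))
        simp only [Function.comp, Equiv.apply_symm_apply] at this
        exact this.symm
      rw [h2]
      have := congrFun h1 i
      simp only [Function.comp] at this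
      exact this.symm
    have hu' : (u ∘ s) ∘ s.symm = u := by
      funext x
      simp
    rw [hψ, ← hs, hu']
    refine Prod.ext (Prod.ext ?_ ?_) rfl
    · ext x
      simp
    · simp only
      -- φ ∘ π ∘ sort u = φ
      have h1 := Tuple.comp_perm_comp_sort_eq_comp_sort (f := φ) (σ := π)
      rw [← hs] at h1
      funext x
      obtain ⟨i, rfl⟩ := (Tuple.sort φ).surjective x
      have := congrFun h1 i
      simp only [Function.comp] at this ⊢
      rw [← hC i]
      exact this
  right_inv y := by
    obtain ⟨κ, ⟨g1, g2⟩, ⟨hm, hlex⟩, hcont⟩ := y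
    simp only at hm hlex hcont
    set ψ := g1 ∘ κ.symm with hψ
    set s := Tuple.sort ψ with hs
    set u := g2 ∘ s.symm with hu
    have hψκ : ψ ∘ κ = g1 := by
      funext x
      simp [hψ]
    have hψs : ψ ∘ s = g1 := by
      rw [← hψκ, hs]
      symm
      rw [Tuple.comp_sort_eq_comp_iff_monotone, hψκ]
      exact hm
    have hφπ : (ψ ∘ Tuple.sort u) ∘ ((s.symm.trans κ).trans (Tuple.sort u).symm) = ψ := by
      funext p
      simp only [Function.comp, Equiv.trans_apply, Equiv.apply_symm_apply]
      have h1 := congrFun hψκ (s.symm p)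
      have h2 := congrFun hψs (s.symm p)
      simp only [Function.comp, Equiv.apply_symm_apply] at h1 h2
      rw [h1, ← h2]
    refine Prod.ext ?_ (Subtype.ext (Prod.ext ?_ ?_))
    · simp only
      rw [hφπ, ← hs]
      ext x
      simp
    · simp only
      rw [hφπ, ← hs, hψs]
    · simp only
      rw [hφπ, ← hs]
      funext x
      simp

theorem toMultiset_content (u : Fin n → ℕ) :
    Finsupp.toMultiset (content u) = ((List.ofFn u : List ℕ) : Multiset ℕ) := by
  unfold content
  rw [map_sum]
  simp only [Finsupp.toMultiset_single, one_smul]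
  induction n with
  | zero => simp
  | succ n ih =>
    rw [Fin.sum_univ_succ, List.ofFn_succ, ih (fun i => u i.succ)]
    rw [← Multiset.cons_coe, Multiset.singleton_add]

theorem content_eq_iff (u : Fin n → ℕ) (e : ℕ →₀ ℕ) :
    content u = e ↔ ((List.ofFn u : List ℕ) : Multiset ℕ) = Finsupp.toMultiset e := by
  rw [← toMultiset_content]
  constructor
  · intro h
    rw [h]
  · intro h
    have := congrArg Multiset.toFinsupp h
    rwa [Finsupp.toMultiset_toFinsupp, Finsupp.toMultiset_toFinsupp] at this

theorem lexMono_iff (g1 : Fin n → Fin N) (g2 : Fin n → ℕ) :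
    LexMono g1 g2 ↔ Monotone (fun i => toLex (g1 i, g2 i) : Fin n → Fin N ×ₗ ℕ) := by
  constructor
  · intro h i j hij
    rcases hij.eq_or_lt with rfl | hij'
    · exact le_rfl
    · rw [Prod.Lex.toLex_le_toLex]
      rcases (h.1 hij).lt_or_eq with h1 | h1
      · exact Or.inl h1
      · exact Or.inr ⟨h1, h.2 i j hij' h1⟩
  · intro h
    constructor
    · intro i j hij
      have := h hij
      rw [Prod.Lex.toLex_le_toLex] at this
      rcases this with h1 | h1
      · exact h1.le
      · exact h1.1.le
    · intro i j hij hE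
      have := h hij.le
      rw [Prod.Lex.toLex_le_toLex] at this
      rcases this with h1 | h1
      · simp only at h1
        exact absurd hE h1.ne
      · exact h1.2

theorem len_aux {e : ℕ →₀ ℕ} (he : Multiset.card (Finsupp.toMultiset e) = n)
    (M : {M : Multiset (Fin N ×ₗ ℕ) // M.map (fun x => (ofLex x).2) = Finsupp.toMultiset e}) :
    n = (M.1.sort).length := by
  have h := congrArg Multiset.card M.2
  rw [Multiset.card_map] at h
  rw [Multiset.length_sort, h, he]

/-- Lexicographically increasing pairs correspond to multisets of pairs. -/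
noncomputable def gEquiv (n N : ℕ) (e : ℕ →₀ ℕ) (he : Multiset.card (Finsupp.toMultiset e) = n) :
    {g : (Fin n → Fin N) × (Fin n → ℕ) // LexMono g.1 g.2 ∧ content g.2 = e} ≃
      {M : Multiset (Fin N ×ₗ ℕ) // M.map (fun x => (ofLex x).2) = Finsupp.toMultiset e} where
  toFun g := ⟨((List.ofFn (fun i => toLex (g.1.1 i, g.1.2 i)) : List (Fin N ×ₗ ℕ)) :
      Multiset (Fin N ×ₗ ℕ)), by
    rw [Multiset.map_coe, List.map_ofFn]
    have := (content_eq_iff g.1.2 e).1 g.2.2
    rw [← this]
    congr 1⟩
  invFun M := ⟨(fun i => (ofLex ((M.1.sort).get (i.cast (len_aux he M)))).1,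
      fun i => (ofLex ((M.1.sort).get (i.cast (len_aux he M)))).2), by
    have hlen : n = (M.1.sort).length := len_aux he M
    constructor
    · rw [lexMono_iff]
      intro i j hij
      simp only [Prod.mk.eta, toLex_ofLex]
      have hp := Multiset.pairwise_sort M.1 (· ≤ ·)
      rcases hij.eq_or_lt with rfl | hij'
      · exact le_rfl
      · rw [List.pairwise_iff_get] at hp
        exact hp _ _ (by simpa using hij')
    · rw [content_eq_iff]
      refine Eq.trans ?_ M.2
      have h1 : (List.ofFn (fun i => (ofLex ((M.1.sort).get (Fin.cast hlen i))).2)) =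
          (M.1.sort).map (fun x => (ofLex x).2) := by
        apply List.ext_get
        · simp [hlen]
        · intro k h1 h2
          simp
      refine (congrArg (fun L : List ℕ => (L : Multiset ℕ)) h1).trans ?_
      rw [← Multiset.map_coe, Multiset.sort_eq]⟩
  left_inv g := by
    apply Subtype.ext
    have hs : (((List.ofFn (fun i => toLex (g.1.1 i, g.1.2 i)) : List (Fin N ×ₗ ℕ)) :
      Multiset (Fin N ×ₗ ℕ))).sort = List.ofFn (fun i => toLex (g.1.1 i, g.1.2 i)) := by
      apply List.Perm.eq_of_pairwise' (r := (· ≤ ·)) (Multiset.pairwise_sort _ _)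
      · have := (lexMono_iff _ _).1 g.2.1
        exact this.sortedLE_ofFn.pairwise
      · rw [← Multiset.coe_eq_coe, Multiset.sort_eq]
    refine Prod.ext ?_ ?_
    · funext i
      simp only
      have : ∀ (L : List (Fin N ×ₗ ℕ)) (hL : n = L.length),
        L = List.ofFn (fun i => toLex (g.1.1 i, g.1.2 i)) →
        (ofLex (L.get (Fin.cast hL i))).1 = g.1.1 i := by
        intro L hL hE
        subst hE
        simp
      exact this _ _ hs
    · funext i
      simp only
      have : ∀ (L : List (Fin N ×ₗ ℕ)) (hL : n = L.length),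
        L = List.ofFn (fun i => toLex (g.1.1 i, g.1.2 i)) →
        (ofLex (L.get (Fin.cast hL i))).2 = g.1.2 i := by
        intro L hL hE
        subst hE
        simp
      exact this _ _ hs
  right_inv M := by
    apply Subtype.ext
    simp only [Prod.mk.eta, toLex_ofLex]
    have hlen : n = (M.1.sort).length := len_aux he M
    have h1 : (List.ofFn (fun i => ((M.1.sort).get (Fin.cast hlen i)))) = M.1.sort := by
      apply List.ext_get
      · simp [hlen]
      · intro k h1 h2
        simp
    rw [h1, Multiset.sort_eq]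


theorem sum_count (M : Multiset (Fin N ×ₗ ℕ)) (l : ℕ) :
    ∑ a : Fin N, M.count (toLex (a, l)) =
        Multiset.count l (M.map (fun x => (ofLex x).2)) := by
  induction M using Multiset.induction with
  | empty => simp
  | cons x M ih =>
    simp only [Multiset.count_cons, Multiset.map_cons, Finset.sum_add_distrib, ih]
    congr 1
    have h : ∀ a : Fin N, (toLex (a, l) = x) ↔ (a = (ofLex x).1 ∧ l = (ofLex x).2) := by
      intro a
      constructor
      · intro h
        rw [← h]
        simp
      · rintro ⟨h1, h2⟩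
        rw [h1, h2]
        simp
    simp only [h]
    by_cases hl : l = (ofLex x).2
    · simp [hl]
    · simp [hl]

theorem map_eq_iff (M : Multiset (Fin N ×ₗ ℕ)) (e : ℕ →₀ ℕ) :
    M.map (fun x => (ofLex x).2) = Finsupp.toMultiset e ↔
      ∀ l, ∑ a : Fin N, M.count (toLex (a, l)) = e l := by
  rw [Multiset.ext]
  refine forall_congr' (fun l => ?_)
  rw [sum_count, Finsupp.count_toMultiset]

theorem exists_multiset (e : ℕ →₀ ℕ) (D : ℕ → Fin N → ℕ) (hD : ∀ l, ∑ a, D l a = e l) :
    ∃ M : Multiset (Fin N ×ₗ ℕ), ∀ l a, M.count (toLex (a, l)) = D l a := by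
  refine ⟨∑ l ∈ e.support, ∑ a, (D l a) • ({toLex (a, l)} : Multiset (Fin N ×ₗ ℕ)), ?_⟩
  intro l a
  simp only [Multiset.count_sum', Multiset.count_nsmul, Multiset.count_singleton]
  have h : ∀ (l' : ℕ) (a' : Fin N), (toLex (a, l) = toLex (a', l')) ↔ (a = a' ∧ l = l') := by
    intro l' a'
    constructor
    · intro h
      have := congrArg ofLex h
      simpa [Prod.ext_iff] using this
    · rintro ⟨h1, h2⟩
      rw [h1, h2]
  simp only [h]
  by_cases hl : l ∈ e.support
  · rw [Finset.sum_eq_single l]
    · rw [Finset.sum_eq_single a]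
      · simp
      · intro b _ hb
        simp [hb.symm]
      · simp
    · intro b _ hb
      simp [hb.symm]
    · intro h'
      exact absurd hl h'
  · rw [Finset.sum_eq_zero]
    · have h0 : e l = 0 := by simpa using hl
      have h1 := hD l
      rw [h0] at h1
      exact ((Finset.sum_eq_zero_iff.1 h1) a (Finset.mem_univ _)).symm
    · intro l' hl'
      apply Finset.sum_eq_zero
      intro a' _
      have : l ≠ l' := fun h' => hl (h' ▸ hl')
      simp [this]

/-- Multisets of pairs with prescribed second projection correspond to families of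
exponent vectors. -/
theorem card_multiset (N : ℕ) (e : ℕ →₀ ℕ) :
    Nat.card {M : Multiset (Fin N ×ₗ ℕ) // M.map (fun x => (ofLex x).2) = Finsupp.toMultiset e} =
      Nat.card (∀ l : ℕ, {S : Fin N → ℕ // ∑ a, S a = e l}) := by
  let F : {M : Multiset (Fin N ×ₗ ℕ) // M.map (fun x => (ofLex x).2) = Finsupp.toMultiset e} →
      (∀ l : ℕ, {S : Fin N → ℕ // ∑ a, S a = e l}) :=
    fun M l => ⟨fun a => M.1.count (toLex (a, l)), (map_eq_iff M.1 e).1 M.2 l⟩
  apply Nat.card_congr
  apply Equiv.ofBijective F
  constructor
  · intro M M' h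
    apply Subtype.ext
    rw [Multiset.ext]
    intro x
    have := congrFun (congrArg Subtype.val (congrFun h (ofLex x).2)) (ofLex x).1
    simpa [F] using this
  · intro D
    obtain ⟨M, hM⟩ := exists_multiset e (fun l => (D l).1) (fun l => (D l).2)
    refine ⟨⟨M, (map_eq_iff M e).2 (fun l => ?_)⟩, ?_⟩
    · simp only [hM]
      exact (D l).2
    · funext l
      apply Subtype.ext
      funext a
      exact hM l a

theorem card_pi_nat (N : ℕ) (e : ℕ →₀ ℕ) :
    Nat.card (∀ l : ℕ, {S : Fin N → ℕ // ∑ a, S a = e l}) =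
      ∏ l ∈ e.support, Nat.multichoose N (e l) := by
  classical
  rw [Nat.card_congr (Equiv.piEquivPiSubtypeProd (fun l => l ∈ e.support)
    (fun l => {S : Fin N → ℕ // ∑ a, S a = e l})), Nat.card_prod]
  have h2 : Nat.card (∀ l : {l // ¬ l ∈ e.support}, {S : Fin N → ℕ // ∑ a, S a = e l}) = 1 := by
    have : ∀ l : {l // ¬ l ∈ e.support}, Unique {S : Fin N → ℕ // ∑ a, S a = e l} := by
      intro l
      have h0 : e l = 0 := by simpa using l.2
      refine ⟨⟨⟨fun _ => 0, by simp [h0]⟩⟩, ?_⟩
      intro S
      apply Subtype.ext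
      funext a
      have := S.2.trans h0
      exact (Finset.sum_eq_zero_iff.1 this) a (Finset.mem_univ _)
    have : Unique (∀ l : {l // ¬ l ∈ e.support}, {S : Fin N → ℕ // ∑ a, S a = e l}) := by
      have := this
      infer_instance
    exact Nat.card_unique
  rw [h2, mul_one]
  rw [Nat.card_pi]
  have h3 : ∀ k, Nat.card {S : Fin N → ℕ // ∑ a, S a = k} = Nat.multichoose N k := by
    intro k
    rw [← Nat.card_congr (Sym.equivNatSumOfFintype (Fin N) k), Sym.natCard_sym_eq_multichoose]
    simp
  simp only [h3]
  exact Finset.prod_coe_sort e.support (fun l => Nat.multichoose N (e l))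

/-- The number of lexicographically increasing pairs of words. -/
theorem card_lex (n N : ℕ) (e : ℕ →₀ ℕ) (he : Multiset.card (Finsupp.toMultiset e) = n) :
    Nat.card {g : (Fin n → Fin N) × (Fin n → ℕ) // LexMono g.1 g.2 ∧ content g.2 = e} =
      ∏ l ∈ e.support, Nat.multichoose N (e l) := by
  rw [Nat.card_congr (gEquiv n N e he), card_multiset, card_pi_nat]

theorem card_main (n N : ℕ) (e : ℕ →₀ ℕ) (he : Multiset.card (Finsupp.toMultiset e) = n) :
    Nat.card {x : (Equiv.Perm (Fin n) × (Fin n → Fin N)) × (Fin n → ℕ) //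
      content x.2 = e ∧ (fillPerm x.1.2 x.1.1).symm = Tuple.sort x.2} =
      n.factorial * ∏ l ∈ e.support, Nat.multichoose N (e l) := by
  rw [Nat.card_congr (mainEquiv n N e), Nat.card_prod, card_lex n N e he]
  congr 1
  rw [Nat.card_eq_fintype_card, Fintype.card_perm, Fintype.card_fin]

theorem finite_content (n : ℕ) (e : ℕ →₀ ℕ) : Finite {u : Fin n → ℕ // content u = e} := by
  have : Set.Finite {u : Fin n → ℕ | content u = e} := by
    apply Set.Finite.subset (Set.Finite.pi' (ι := Fin n) (t := fun _ => (e.support : Set ℕ))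
      (fun _ => Finset.finite_toSet _))
    intro u hu i
    change content u = e at hu
    rw [Finset.mem_coe, Finsupp.mem_support_iff, ← hu]
    unfold content
    rw [Finsupp.finsetSum_apply]
    have : (1 : ℕ) ≤ ∑ j, (Finsupp.single (u j) 1 : ℕ →₀ ℕ) (u i) := by
      have h1 := Finset.single_le_sum (f := fun j => (Finsupp.single (u j) 1 : ℕ →₀ ℕ) (u i))
        (fun _ _ => Nat.zero_le _) (Finset.mem_univ i)
      simpa using h1
    omega
  exact this

end R134.RJ
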