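import Pool.Agent.R134.RJ3

/-!
# Quasisymmetric functions and the one-row Jack polynomial
-/

namespace R134.RJ

open Finset

/-- The fundamental quasisymmetric function `F_S` of degree `n` in the variables `x_0, x_1, …`
with coefficients in `R`: the sum of `x_{i_1} ⋯ x_{i_n}` over all weakly increasing sequences
`i_1 ≤ ⋯ ≤ i_n` with `i_j < i_{j+1}` for all `j ∈ S`.  (A sequence is a function on `Fin n`, whose
element `j` stands for the index `j + 1`; so if `k = j + 1` in `Fin n`, then `k`, read as a natural
number, is the one-based index of `j`.) -/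
noncomputable def fundQSym (R : Type*) [CommSemiring R] (n : ℕ) (S : Finset ℕ) :
    MvPowerSeries ℕ R :=
  fun e => (Nat.card {i : Fin n → ℕ // Monotone i ∧
    (∀ j k : Fin n, (k : ℕ) = j + 1 → (k : ℕ) ∈ S → i j < i k) ∧
    ∑ j, Finsupp.single (i j) 1 = e} : R)

/-- The monomial symmetric function `m_λ` in the variables `x_0, x_1, …`: the sum of all monomials
whose multiset of nonzero exponents is the multiset of parts of `λ`. -/
noncomputable def monoSym (R : Type*) [CommSemiring R] (lam : Multiset ℕ) : MvPowerSeries ℕ R :=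
  fun e => if e.support.val.map e = lam then 1 else 0

/-- The normalised one-row Jack polynomial
`∑_{λ ⊢ n} (n! / λ!) ∏_{s ∈ λ} (α + arm s) m_λ`, with `α = Polynomial.X`.  The cells in a row of
length `k` are indexed by `j = 0, …, k - 1`, and the arm of cell `j` is `k - 1 - j`. -/
noncomputable def jackRow (n : ℕ) : MvPowerSeries ℕ (Polynomial ℚ) :=
  ∑ lam : n.Partition,
    MvPowerSeries.C (Polynomial.C ((n.factorial : ℚ) / ((lam.parts.map Nat.factorial).prod : ℕ)) *
      (lam.parts.map (fun k => ∏ j ∈ Finset.range k,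
        (Polynomial.X + Polynomial.C ((k - 1 - j : ℕ) : ℚ)))).prod) *
    monoSym (Polynomial ℚ) lam.parts

theorem factorial_mul_multichoose (N k : ℕ) :
    k.factorial * Nat.multichoose N k = ∏ j ∈ Finset.range k, (N + j) := by
  rw [← Nat.ascFactorial_eq_prod_range]
  cases N with
  | zero =>
    cases k with
    | zero => simp
    | succ k =>
      rw [Nat.multichoose_zero_succ, Nat.ascFactorial_eq_prod_range, Finset.prod_range_succ']
      simp
  | succ N =>
    rw [Nat.multichoose_eq, Nat.ascFactorial_eq_factorial_mul_choose]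
    congr 2
    omega

/-- Counting functions with prescribed kernel. -/
theorem card_ker {n : ℕ} (N : ℕ) (β : Finpartition (univ : Finset (Fin n))) :
    (univ.filter (fun φ : Fin n → Fin N => kerPart φ = β)).card =
      N.descFactorial β.parts.card := by
  classical
  have h1 : (univ.filter (fun φ : Fin n → Fin N => kerPart φ = β)).card =
      Fintype.card {φ : Fin n → Fin N // kerPart φ = β} := by
    rw [Fintype.card_subtype]
  rw [h1]
  have hpart : ∀ P : Finpartition (univ : Finset (Fin n)), ∀ B : Finset (Fin n),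
      B ∈ P.parts ↔ ∃ a, P.part a = B := by
    intro P B
    constructor
    · intro hB
      obtain ⟨x, hx⟩ := P.nonempty_of_mem_parts hB
      exact ⟨x, P.part_eq_of_mem hB hx⟩
    · rintro ⟨a, rfl⟩
      exact P.part_mem.2 (Finset.mem_univ a)
  have hext : ∀ P Q : Finpartition (univ : Finset (Fin n)), (∀ a, P.part a = Q.part a) → P = Q := by
    intro P Q h
    apply Finpartition.ext
    ext B
    rw [hpart, hpart]
    simp only [h]
  let G : ({x // x ∈ β.parts} ↪ Fin N) → {φ : Fin n → Fin N // kerPart φ = β} :=
    fun h => ⟨fun v => h ⟨β.part v, β.part_mem.2 (Finset.mem_univ v)⟩, by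
      apply hext
      intro a
      ext b
      rw [mem_part_kerPart]
      constructor
      · intro hE
        have := h.injective hE
        simp only [Subtype.mk.injEq] at this
        rw [this]
        exact β.mem_part (Finset.mem_univ b)
      · intro hb
        have := (β.mem_part_iff_part_eq_part (Finset.mem_univ b) (Finset.mem_univ a)).1 hb
        congr 1
        exact Subtype.ext this.symm⟩
  have hG : Function.Bijective G := by
    constructor
    · intro h h' hE
      apply DFunLike.ext
      intro B
      obtain ⟨a, ha⟩ := (hpart β B.1).1 B.2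
      have := congrFun (congrArg Subtype.val hE) a
      simp only [G] at this
      have hB : B = ⟨β.part a, β.part_mem.2 (Finset.mem_univ a)⟩ := Subtype.ext ha.symm
      rw [hB]
      exact this
    · rintro ⟨φ, rfl⟩
      have hne : ∀ B : {x // x ∈ (kerPart φ).parts}, ∃ a, (kerPart φ).part a = B.1 :=
        fun B => (hpart _ B.1).1 B.2
      choose c hc using hne
      refine ⟨⟨fun B => φ (c B), ?_⟩, ?_⟩
      · intro B B' hE
        apply Subtype.ext
        rw [← hc B, ← hc B']
        have h2 : c B' ∈ (kerPart φ).part (c B) := (mem_part_kerPart φ _ _).2 hE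
        exact (((kerPart φ).mem_part_iff_part_eq_part (Finset.mem_univ _)
          (Finset.mem_univ _)).1 h2).symm
      · apply Subtype.ext
        funext v
        simp only [G, Function.Embedding.coeFn_mk]
        set B : {x // x ∈ (kerPart φ).parts} :=
          ⟨(kerPart φ).part v, (kerPart φ).part_mem.2 (Finset.mem_univ v)⟩ with hB
        have h3 := hc B
        have h4 : v ∈ (kerPart φ).part (c B) := by
          rw [h3, hB]
          exact (kerPart φ).mem_part (Finset.mem_univ v)
        exact (mem_part_kerPart φ _ _).1 h4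
  rw [← Fintype.card_congr (Equiv.ofBijective G hG), Fintype.card_embedding_eq]
  simp

theorem prod_desc (N k : ℕ) :
    (∏ i ∈ Finset.range k, ((N : ℚ) - (i : ℚ))) = (N.descFactorial k : ℚ) := by
  induction k with
  | zero => simp
  | succ k ih =>
    rw [Finset.prod_range_succ, ih, Nat.descFactorial_succ]
    rcases le_or_gt k N with h | h
    · rw [Nat.cast_mul, Nat.cast_sub h]
      ring
    · rw [Nat.descFactorial_eq_zero_iff_lt.2 h]
      simp

theorem coeff_fund_perm {n : ℕ} (σ : Equiv.Perm (Fin n)) (e : ℕ →₀ ℕ) :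
    Nat.card {i : Fin n → ℕ // Monotone i ∧
    (∀ j k : Fin n, (k : ℕ) = j + 1 → (k : ℕ) ∈ desSet n (insTab (word σ)) → i j < i k) ∧
    ∑ j, Finsupp.single (i j) 1 = e} =
    Nat.card {u : Fin n → ℕ // content u = e ∧ σ.symm = Tuple.sort u} :=
  Nat.card_congr (fundEquiv σ e)

/-- The right-hand side evaluated at a natural number. -/
theorem rhs_eval (n N : ℕ) (e : ℕ →₀ ℕ) (he : Multiset.card (Finsupp.toMultiset e) = n) :
    ∑ π : Equiv.Perm (Fin n), ∑ β : Finpartition (univ : Finset (Fin n)),
      N.descFactorial β.parts.card * Nat.card {i : Fin n → ℕ // Monotone i ∧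
    (∀ j k : Fin n, (k : ℕ) = j + 1 →
      (k : ℕ) ∈ desSet n (insTab (word (refill β π))) → i j < i k) ∧
    ∑ j, Finsupp.single (i j) 1 = e} =
      n.factorial * ∏ l ∈ e.support, Nat.multichoose N (e l) := by
  classical
  rw [← card_main n N e he]
  set g : Finpartition (univ : Finset (Fin n)) → Equiv.Perm (Fin n) → ℕ := fun β π =>
    Nat.card {i : Fin n → ℕ // Monotone i ∧
    (∀ j k : Fin n, (k : ℕ) = j + 1 →
      (k : ℕ) ∈ desSet n (insTab (word (refill β π))) → i j < i k) ∧
    ∑ j, Finsupp.single (i j) 1 = e} with hg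
  have h1 : ∀ π : Equiv.Perm (Fin n), ∑ β : Finpartition (univ : Finset (Fin n)),
      N.descFactorial β.parts.card * g β π = ∑ φ : Fin n → Fin N, g (kerPart φ) π := by
    intro π
    rw [← Finset.sum_fiberwise univ kerPart]
    refine Finset.sum_congr rfl (fun β _ => ?_)
    rw [← card_ker, Finset.card_eq_sum_ones, Finset.sum_mul]
    refine Finset.sum_congr rfl (fun φ hφ => ?_)
    rw [(Finset.mem_filter.1 hφ).2, one_mul]
  have h2 : ∀ (π : Equiv.Perm (Fin n)) (φ : Fin n → Fin N), g (kerPart φ) π =
      Nat.card {u : Fin n → ℕ // content u = e ∧ (fillPerm φ π).symm = Tuple.sort u} := by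
    intro π φ
    rw [hg]
    simp only
    rw [refill_kerPart, coeff_fund_perm]
  have hfin : ∀ x : Equiv.Perm (Fin n) × (Fin n → Fin N),
      Finite {u : Fin n → ℕ // content u = e ∧ (fillPerm x.2 x.1).symm = Tuple.sort u} := by
    intro x
    have := finite_content n e
    exact Finite.of_injective (β := {u : Fin n → ℕ // content u = e})
      (fun u => ⟨u.1, u.2.1⟩) (fun u v h => Subtype.ext (by simpa using h))
  rw [Nat.card_congr (Equiv.subtypeProdEquivSigmaSubtype
    (fun (x : Equiv.Perm (Fin n) × (Fin n → Fin N)) (u : Fin n → ℕ) =>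
      content u = e ∧ (fillPerm x.2 x.1).symm = Tuple.sort u)), Nat.card_sigma,
    Fintype.sum_prod_type]
  refine Finset.sum_congr rfl (fun π _ => ?_)
  rw [h1]
  exact Finset.sum_congr rfl (fun φ _ => h2 π φ)

theorem rhs_zero (n : ℕ) (S : Finset ℕ) (e : ℕ →₀ ℕ)
    (he : Multiset.card (Finsupp.toMultiset e) ≠ n) :
    Nat.card {i : Fin n → ℕ // Monotone i ∧
    (∀ j k : Fin n, (k : ℕ) = j + 1 → (k : ℕ) ∈ S → i j < i k) ∧
    ∑ j, Finsupp.single (i j) 1 = e} = 0 := by
  rw [Nat.card_eq_zero]
  left
  constructor
  rintro ⟨i, _, _, hi⟩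
  apply he
  rw [← hi]
  have := toMultiset_content i
  unfold content at this
  rw [this]
  simp

end R134.RJ
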