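import Mathlib

/-!
# Set partitions by genus: the block permutation and the orbits of `τ⁻¹ σ`
-/

set_option autoImplicit false

namespace Pool.Agent.R134.TB

open Finset Equiv

/-- The element after `i` in its block, where the blocks are the fibres of `f` and each block is
traversed cyclically in increasing order: the least larger element of the block of `i` if there is
one, and otherwise the least element of the block. -/
def nextIn {n : ℕ} {C : Type*} [DecidableEq C] (f : Fin n → C) (i : Fin n) : Fin n :=
  if h : (univ.filter fun j => i < j ∧ f j = f i).Nonempty then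
    (univ.filter fun j => i < j ∧ f j = f i).min' h
  else (univ.filter fun j => f j = f i).min' ⟨i, by simp⟩

section basic

variable {n : ℕ} {C : Type*} [DecidableEq C] (f : Fin n → C)

lemma nextIn_eq_of_gt {i j : Fin n} (hij : i < j) (hf : f j = f i)
    (h : ∀ u, i < u → u < j → f u ≠ f i) : nextIn f i = j := by
  have hne : (univ.filter fun j => i < j ∧ f j = f i).Nonempty := ⟨j, by simp [hij, hf]⟩
  unfold nextIn
  rw [dif_pos hne]
  apply le_antisymm
  · apply Finset.min'_le
    simp [hij, hf]
  · apply Finset.le_min'
    intro y hy
    simp only [mem_filter, mem_univ, true_and] at hy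
    by_contra hcon
    exact h y hy.1 (not_le.mp hcon) hy.2

lemma nextIn_eq_of_le {i j : Fin n} (hf : f j = f i) (h1 : ∀ u, i < u → f u ≠ f i)
    (h2 : ∀ u, u < j → f u ≠ f i) : nextIn f i = j := by
  have hne : ¬ (univ.filter fun j => i < j ∧ f j = f i).Nonempty := by
    rintro ⟨u, hu⟩
    simp only [mem_filter, mem_univ, true_and] at hu
    exact h1 u hu.1 hu.2
  unfold nextIn
  rw [dif_neg hne]
  apply le_antisymm
  · apply Finset.min'_le
    simp [hf]
  · apply Finset.le_min'
    intro y hy
    simp only [mem_filter, mem_univ, true_and] at hy
    by_contra hcon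
    exact h2 y (not_le.mp hcon) hy

lemma f_nextIn (i : Fin n) : f (nextIn f i) = f i := by
  unfold nextIn
  split_ifs with h
  · have := Finset.min'_mem _ h
    simp only [mem_filter, mem_univ, true_and] at this
    exact this.2
  · have := Finset.min'_mem (univ.filter fun j => f j = f i) ⟨i, by simp⟩
    simp only [mem_filter, mem_univ, true_and] at this
    exact this

/-- if there is a larger element in the block then `nextIn` is larger and is `≤` it -/
lemma nextIn_le {i j : Fin n} (hij : i < j) (hf : f j = f i) :
    i < nextIn f i ∧ nextIn f i ≤ j := by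
  have hne : (univ.filter fun j => i < j ∧ f j = f i).Nonempty := ⟨j, by simp [hij, hf]⟩
  unfold nextIn
  rw [dif_pos hne]
  constructor
  · have := Finset.min'_mem _ hne
    simp only [mem_filter, mem_univ, true_and] at this
    exact this.1
  · apply Finset.min'_le
    simp [hij, hf]

lemma nextIn_cases (i : Fin n) : (i < nextIn f i) ∨
    (∀ u, f u = f i → nextIn f i ≤ u ∧ u ≤ i) := by
  by_cases hne : (univ.filter fun j => i < j ∧ f j = f i).Nonempty
  · left
    obtain ⟨j, hj⟩ := hne
    simp only [mem_filter, mem_univ, true_and] at hj
    exact (nextIn_le f hj.1 hj.2).1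
  · right
    intro u hu
    constructor
    · unfold nextIn
      rw [dif_neg hne]
      apply Finset.min'_le
      simp [hu]
    · by_contra hcon
      exact hne ⟨u, by simp [hu, not_le.mp hcon]⟩

lemma nextIn_injective : Function.Injective (nextIn f) := by
  have key : ∀ i j : Fin n, i < j → nextIn f i ≠ nextIn f j := by
    intro i j hij h
    have hf : f i = f j := by rw [← f_nextIn f i, ← f_nextIn f j, h]
    have h1 := nextIn_le f hij hf.symm
    rcases nextIn_cases f j with h2 | h2
    · rw [h] at h1
      exact absurd h1.2 (not_le.mpr h2)
    · have h3 := (h2 i hf).1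
      rw [← h] at h3
      exact absurd h3 (not_le.mpr h1.1)
  intro i j h
  rcases lt_trichotomy i j with h1 | h1 | h1
  · exact absurd h (key i j h1)
  · exact h1
  · exact absurd h.symm (key j i h1)

end basic

/-- The permutation whose cycles are the blocks (the fibres of `f`), each traversed in increasing
order. -/
noncomputable def blockPerm {n : ℕ} {C : Type*} [DecidableEq C] (f : Fin n → C) : Perm (Fin n) :=
  Equiv.ofBijective (nextIn f) (Finite.injective_iff_bijective.mp (nextIn_injective f))

/-- The number of cycles of a permutation (fixed points included): the number of its orbits. -/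
noncomputable def numCycles {n : ℕ} (π : Perm (Fin n)) : ℕ :=
  Nat.card (Quotient (Perm.SameCycle.setoid π))

section sign

lemma numCycles_eq {n : ℕ} (π : Perm (Fin n)) :
    numCycles π = π.cycleFactorsFinset.card + (n - π.support.card) := by
  classical
  have h1 : (n - π.support.card) = Fintype.card {x : Fin n // x ∉ π.support} := by
    rw [Fintype.card_subtype_compl, Fintype.card_fin, Fintype.card_coe]
  rw [h1, ← Fintype.card_coe, ← Fintype.card_sum, ← Nat.card_eq_fintype_card]
  unfold numCycles
  let φ : Fin n → π.cycleFactorsFinset ⊕ {x : Fin n // x ∉ π.support} := fun x =>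
    if h : x ∈ π.support then Sum.inl ⟨π.cycleOf x, Perm.cycleOf_mem_cycleFactorsFinset_iff.mpr h⟩
    else Sum.inr ⟨x, h⟩
  have hφ : ∀ x y, φ x = φ y ↔ Perm.SameCycle π x y := by
    intro x y
    simp only [φ]
    by_cases hx : x ∈ π.support <;> by_cases hy : y ∈ π.support
    · rw [dif_pos hx, dif_pos hy]
      simp only [Sum.inl.injEq, Subtype.mk.injEq]
      constructor
      · intro h
        have h2 : y ∈ (π.cycleOf x).support := by
          rw [h, Perm.mem_support_cycleOf_iff]
          exact ⟨Perm.SameCycle.refl _ _, hy⟩
        rw [Perm.mem_support_cycleOf_iff] at h2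
        exact h2.1
      · intro h
        exact h.cycleOf_eq
    · rw [dif_pos hx, dif_neg hy]
      constructor
      · intro h
        simp at h
      · intro h
        exfalso
        rw [Perm.notMem_support] at hy
        have := (Perm.SameCycle.symm h).eq_of_left hy
        rw [this] at hy
        exact (Perm.mem_support.mp hx) hy
    · rw [dif_neg hx, dif_pos hy]
      constructor
      · intro h
        simp at h
      · intro h
        exfalso
        rw [Perm.notMem_support] at hx
        have := h.eq_of_left hx
        rw [this] at hx
        exact (Perm.mem_support.mp hy) hx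
    · rw [dif_neg hx, dif_neg hy]
      simp only [Sum.inr.injEq, Subtype.mk.injEq]
      constructor
      · rintro rfl
        exact Perm.SameCycle.refl _ _
      · intro h
        exact h.eq_of_left (Perm.notMem_support.mp hx)
  have hsurj : Function.Surjective φ := by
    rintro (⟨c, hc⟩ | ⟨x, hx⟩)
    · have hc' := Perm.mem_cycleFactorsFinset_iff.mp hc
      obtain ⟨x, hx⟩ := hc'.1.nonempty_support
      refine ⟨x, ?_⟩
      have hcx : c = π.cycleOf x := Perm.cycle_is_cycleOf hx hc
      have hxs : x ∈ π.support := Perm.mem_cycleFactorsFinset_support_le hc hx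
      simp only [φ]
      rw [dif_pos hxs]
      simp only [Sum.inl.injEq, Subtype.mk.injEq]
      exact hcx.symm
    · refine ⟨x, ?_⟩
      simp only [φ]
      rw [dif_neg hx]
  let ψ : Quotient (Perm.SameCycle.setoid π) → π.cycleFactorsFinset ⊕ {x : Fin n // x ∉ π.support} :=
    Quotient.lift φ (fun a b h => (hφ a b).mpr h)
  apply Nat.card_congr
  apply Equiv.ofBijective ψ
  constructor
  · intro a b
    induction a using Quotient.inductionOn
    induction b using Quotient.inductionOn
    intro h
    exact Quotient.sound ((hφ _ _).mp h)
  · intro y
    obtain ⟨x, hx⟩ := hsurj y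
    exact ⟨Quotient.mk _ x, hx⟩

lemma sign_eq {n : ℕ} (π : Perm (Fin n)) : Perm.sign π = (-1) ^ (n + numCycles π) := by
  have h1 := Perm.sign_of_cycleType π
  have h2 := Perm.sum_cycleType π
  have h3 : Multiset.card π.cycleType = π.cycleFactorsFinset.card := by
    rw [Perm.cycleType_def, Multiset.card_map]
    rfl
  have h4 : π.support.card ≤ n := by
    simpa using Finset.card_le_univ π.support
  rw [h1, h2, h3, numCycles_eq]
  have : n + (π.cycleFactorsFinset.card + (n - π.support.card)) + 2 * π.support.card =
      (π.support.card + π.cycleFactorsFinset.card) + 2 * n := by omega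
  have h5 := congrArg (fun k => (-1 : ℤˣ) ^ k) this
  simp only [pow_add, pow_mul] at h5 ⊢
  simpa using h5.symm

end sign

end Pool.Agent.R134.TB
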