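import Pool.Agent.R134.TB1

set_option autoImplicit false
set_option linter.unusedSectionVars false

namespace Pool.Agent.R134.TB

open Finset Equiv

variable {n : ℕ} {C : Type*} [DecidableEq C] (f : Fin n → C)

lemma blockPerm_apply (i : Fin n) : blockPerm f i = nextIn f i := rfl

lemma f_zpow (k : ℤ) (i : Fin n) : f (((blockPerm f) ^ k) i) = f i := by
  have h1 : ∀ i, f (blockPerm f i) = f i := fun i => f_nextIn f i
  have h2 : ∀ i, f ((blockPerm f)⁻¹ i) = f i := by
    intro i
    have := h1 ((blockPerm f)⁻¹ i)
    have h3 : blockPerm f ((blockPerm f)⁻¹ i) = i := Equiv.apply_symm_apply _ _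
    rw [h3] at this
    exact this.symm
  have h3 : ∀ (m : ℕ) (i : Fin n), f (((blockPerm f) ^ m) i) = f i := by
    intro m
    induction m with
    | zero => intro i; rfl
    | succ m ih =>
      intro i
      rw [pow_succ, Perm.mul_apply, ih, h1]
  have h4 : ∀ (m : ℕ) (i : Fin n), f ((((blockPerm f)⁻¹) ^ m) i) = f i := by
    intro m
    induction m with
    | zero => intro i; rfl
    | succ m ih =>
      intro i
      rw [pow_succ, Perm.mul_apply, ih, h2]
  rcases Int.eq_nat_or_neg k with ⟨m, rfl | rfl⟩
  · rw [zpow_natCast]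
    exact h3 m i
  · rw [zpow_neg, zpow_natCast, ← inv_pow]
    exact h4 m i

lemma sameCycle_of_lt : ∀ (d : ℕ) (i j : Fin n), (j : ℕ) - (i : ℕ) ≤ d → i < j → f j = f i →
    Perm.SameCycle (blockPerm f) i j := by
  intro d
  induction d with
  | zero =>
    intro i j h1 h2 _
    have : (i : ℕ) < j := h2
    omega
  | succ d ih =>
    intro i j h1 h2 h3
    have h4 := nextIn_le f h2 h3
    have h5 : Perm.SameCycle (blockPerm f) i (nextIn f i) := ⟨1, by simp [blockPerm_apply]⟩
    rcases h4.2.lt_or_eq with h6 | h6
    · have h7 : (i : ℕ) < nextIn f i := h4.1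
      have h8 : ((nextIn f i : Fin n) : ℕ) < j := h6
      exact h5.trans (ih (nextIn f i) j (by omega) h6 (by rw [f_nextIn f]; exact h3))
    · rw [← h6]
      exact h5

lemma sameCycle_iff (i j : Fin n) : Perm.SameCycle (blockPerm f) i j ↔ f i = f j := by
  constructor
  · rintro ⟨k, hk⟩
    rw [← hk, f_zpow f]
  · intro h
    rcases lt_trichotomy i j with h1 | h1 | h1
    · exact sameCycle_of_lt f _ i j le_rfl h1 h.symm
    · rw [h1]
    · exact (sameCycle_of_lt f _ j i le_rfl h1 h).symm

lemma numCycles_blockPerm : numCycles (blockPerm f) = (univ.image f).card := by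
  classical
  unfold numCycles
  rw [← Fintype.card_coe, ← Nat.card_eq_fintype_card]
  let φ : Fin n → (univ.image f : Finset C) := fun i => ⟨f i, by simp⟩
  have hφ : ∀ x y, φ x = φ y ↔ Perm.SameCycle (blockPerm f) x y := by
    intro x y
    rw [sameCycle_iff]
    simp [φ]
  let ψ : Quotient (Perm.SameCycle.setoid (blockPerm f)) → (univ.image f : Finset C) :=
    Quotient.lift φ (fun a b h => (hφ a b).mpr h)
  apply Nat.card_congr
  apply Equiv.ofBijective ψ
  constructor
  · intro a b
    induction a using Quotient.inductionOn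
    induction b using Quotient.inductionOn
    intro h
    exact Quotient.sound ((hφ _ _).mp h)
  · rintro ⟨y, hy⟩
    rw [mem_image] at hy
    obtain ⟨x, _, hx⟩ := hy
    exact ⟨Quotient.mk _ x, Subtype.ext hx⟩

end Pool.Agent.R134.TB

namespace Pool.Agent.R134.TB

open Finset Equiv

/-! ### Periodic extension -/

variable {N : ℕ} {C : Type*} [DecidableEq C] (f : Fin (N + 1) → C)

/-- residue -/
def r (N z : ℕ) : Fin (N + 1) := ⟨z % (N + 1), Nat.mod_lt _ (Nat.succ_pos _)⟩

/-- periodic extension of the colouring -/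
def F (z : ℕ) : C := f (r N z)

lemma r_add (z k : ℕ) : r N (z + (N + 1) * k) = r N z := by
  apply Fin.ext
  simp [r]

lemma F_add (z k : ℕ) : F f (z + (N + 1) * k) = F f z := by
  unfold F
  rw [r_add]

lemma r_of_lt {a b : ℕ} (h : b < N + 1) : r N ((N + 1) * a + b) = ⟨b, h⟩ := by
  apply Fin.ext
  simp only [r]
  rw [Nat.mul_add_mod, Nat.mod_eq_of_lt h]

lemma block_step {w z : ℕ} (hwz : w < z) (hF : F f w = F f z)
    (h : ∀ u, w < u → u < z → F f u ≠ F f z) : blockPerm f (r N w) = r N z := by
  rw [blockPerm_apply]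
  obtain ⟨a, w', hw', rfl⟩ : ∃ a w', w' < N + 1 ∧ w = (N + 1) * a + w' :=
    ⟨w / (N + 1), w % (N + 1), Nat.mod_lt _ (Nat.succ_pos _), (Nat.div_add_mod _ _).symm⟩
  obtain ⟨b, z', hz', rfl⟩ : ∃ b z', z' < N + 1 ∧ z = (N + 1) * b + z' :=
    ⟨z / (N + 1), z % (N + 1), Nat.mod_lt _ (Nat.succ_pos _), (Nat.div_add_mod _ _).symm⟩
  have hFr : ∀ (k v : ℕ) (hv : v < N + 1), F f ((N + 1) * k + v) = f ⟨v, hv⟩ := by
    intro k v hv
    unfold F
    rw [r_of_lt hv]
  rw [r_of_lt hw', r_of_lt hz']
  rw [hFr a w' hw', hFr b z' hz'] at hF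
  have hab : a ≤ b := by
    by_contra hcon
    have h1 : b + 1 ≤ a := by omega
    have h2 : (N + 1) * (b + 1) ≤ (N + 1) * a := Nat.mul_le_mul_left _ h1
    rw [Nat.mul_add, Nat.mul_one] at h2
    omega
  rcases Nat.lt_or_ge a b with hlt | hge
  · -- a < b
    have hb1 : b = a + 1 := by
      by_contra hcon
      have h1 : a + 2 ≤ b := by omega
      obtain ⟨c, rfl⟩ : ∃ c, b = a + 2 + c := ⟨b - (a + 2), by omega⟩
      have h3 := h ((N + 1) * (a + 1 + c) + z') (by
        have : (N + 1) * (a + 1 + c) = (N + 1) * a + (N + 1) + (N + 1) * c := by ring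
        omega) (by
        have : (N + 1) * (a + 2 + c) = (N + 1) * (a + 1 + c) + (N + 1) := by ring
        omega)
      rw [hFr _ _ hz', hFr _ _ hz'] at h3
      exact h3 rfl
    subst hb1
    have hle : z' ≤ w' := by
      by_contra hcon
      have h3 := h ((N + 1) * a + z') (by omega) (by
        have : (N + 1) * (a + 1) = (N + 1) * a + (N + 1) := by ring
        omega)
      rw [hFr _ _ hz', hFr _ _ hz'] at h3
      exact h3 rfl
    apply nextIn_eq_of_le
    · exact hF.symm
    · rintro ⟨u, hu⟩ hwu
      have hwu' : w' < u := hwu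
      have h3 := h ((N + 1) * a + u) (by omega) (by
        have : (N + 1) * (a + 1) = (N + 1) * a + (N + 1) := by ring
        omega)
      rw [hFr _ _ hu, hFr _ _ hz'] at h3
      rw [hF]
      exact h3
    · rintro ⟨u, hu⟩ huz
      have huz' : u < z' := huz
      have h3 := h ((N + 1) * (a + 1) + u) (by
        have : (N + 1) * (a + 1) = (N + 1) * a + (N + 1) := by ring
        omega) (by omega)
      rw [hFr _ _ hu, hFr _ _ hz'] at h3
      rw [hF]
      exact h3
  · have hab' : a = b := by omega
    subst hab'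
    have hlt : w' < z' := by omega
    apply nextIn_eq_of_gt
    · exact hlt
    · exact hF.symm
    · rintro ⟨u, hu⟩ hwu huz
      have hwu' : w' < u := hwu
      have huz' : u < z' := huz
      have h3 := h ((N + 1) * a + u) (by omega) (by omega)
      rw [hFr _ _ hu, hFr _ _ hz'] at h3
      rw [hF]
      exact h3

lemma rotate_r (z : ℕ) : finRotate (N + 1) (r N z) = r N (z + 1) := by
  rw [finRotate_apply]
  apply Fin.ext
  rw [Fin.val_add]
  simp [r]

/-- the permutation `τ⁻¹ σ` -/
noncomputable def rho : Perm (Fin (N + 1)) := (blockPerm f)⁻¹ * finRotate (N + 1)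

lemma rho_step {w z : ℕ} (hwz : w < z + 1) (hF : F f w = F f (z + 1))
    (h : ∀ u, w < u → u < z + 1 → F f u ≠ F f (z + 1)) : rho f (r N z) = r N w := by
  unfold rho
  rw [Perm.mul_apply, rotate_r, Perm.inv_eq_iff_eq, block_step f hwz hF h]

lemma f_rho (z : ℕ) : f (rho f (r N z)) = F f (z + 1) := by
  unfold rho
  rw [Perm.mul_apply, rotate_r]
  have := f_zpow f (-1) (r N (z + 1))
  rw [zpow_neg_one] at this
  exact this

lemma rho_fixed_iff (z : ℕ) : rho f (r N z) = r N z ↔ F f (z + 1) = F f z := by
  constructor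
  · intro h
    rw [← f_rho, h]
    rfl
  · intro h
    exact rho_step f (Nat.lt_succ_self z) h.symm (by intro u h1 h2; omega)

lemma exists_last {Q : ℕ → Prop} {a b : ℕ} (hab : a < b) (hQ : Q a) :
    ∃ m, a ≤ m ∧ m < b ∧ Q m ∧ ∀ u, m < u → u < b → ¬ Q u := by
  classical
  induction b with
  | zero => omega
  | succ b ih =>
    by_cases hb : Q b
    · exact ⟨b, by omega, by omega, hb, fun u h1 h2 => by omega⟩
    · have hab' : a < b := by
        rcases Nat.lt_or_ge a b with h | h
        · exact h
        · exfalso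
          have : a = b := by omega
          exact hb (this ▸ hQ)
      obtain ⟨m, h1, h2, h3, h4⟩ := ih hab'
      refine ⟨m, h1, by omega, h3, fun u h5 h6 => ?_⟩
      rcases Nat.lt_or_ge u b with h | h
      · exact h4 u h5 h
      · have : u = b := by omega
        rw [this]
        exact hb

/-- a rainbow position exists if all three colours occur -/
lemma exists_rainbow (h3 : (univ.image f).card = 3) :
    ∃ y z, y < z ∧ (∀ u, y < u → u < z → F f u = F f z) ∧ F f y ≠ F f z ∧
      F f (z + 1) ≠ F f z ∧ F f (z + 1) ≠ F f y := by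
  classical
  have hFmem : ∀ i : Fin (N + 1), F f i = f i := by
    intro i
    unfold F
    congr 1
    apply Fin.ext
    simp [r, Nat.mod_eq_of_lt i.2]
  -- there is a change
  obtain ⟨y, hy⟩ : ∃ y, F f y ≠ F f (y + 1) := by
    by_contra hcon
    push Not at hcon
    have hc : ∀ z, F f z = F f 0 := by
      intro z
      induction z with
      | zero => rfl
      | succ z ih => rw [← hcon z, ih]
    have : univ.image f ⊆ {F f 0} := by
      intro c hc'
      rw [mem_image] at hc'
      obtain ⟨i, _, hi⟩ := hc'
      rw [mem_singleton, ← hi, ← hFmem, hc]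
    have := Finset.card_le_card this
    rw [h3, card_singleton] at this
    omega
  -- a third colour
  obtain ⟨c, hc1, hc2, hc3⟩ : ∃ c ∈ univ.image f, c ≠ F f y ∧ c ≠ F f (y + 1) := by
    by_contra hcon
    push Not at hcon
    have : univ.image f ⊆ {F f y, F f (y + 1)} := by
      intro c hc'
      rw [mem_insert, mem_singleton]
      by_cases h : c = F f y
      · exact Or.inl h
      · exact Or.inr (hcon c hc' h)
    have h4 := Finset.card_le_card this
    have h5 := Finset.card_le_two (a := F f y) (b := F f (y + 1))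
    omega
  rw [mem_image] at hc1
  obtain ⟨i, _, hi⟩ := hc1
  have hex : ∃ t, y + 1 < t ∧ F f t ≠ F f y ∧ F f t ≠ F f (y + 1) := by
    refine ⟨i + (N + 1) * (y + 2), ?_, ?_, ?_⟩
    · have : y + 2 ≤ (N + 1) * (y + 2) := Nat.le_mul_of_pos_left _ (Nat.succ_pos _)
      omega
    · rw [F_add, hFmem, hi]
      exact hc2
    · rw [F_add, hFmem, hi]
      exact hc3
  obtain ⟨ht1, ht2, ht3⟩ := Nat.find_spec hex
  have hmin : ∀ u, y ≤ u → u < Nat.find hex → F f u = F f y ∨ F f u = F f (y + 1) := by
    intro u h1 h2
    have h4 := Nat.find_min hex h2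
    rcases Nat.lt_or_ge (y + 1) u with h5 | h5
    · by_contra hcon
      push Not at hcon
      exact h4 ⟨h5, hcon.1, hcon.2⟩
    · rcases Nat.lt_or_ge y u with h6 | h6
      · right
        have : u = y + 1 := by omega
        rw [this]
      · left
        have : u = y := by omega
        rw [this]
  set t := Nat.find hex with ht
  obtain ⟨z, hz⟩ : ∃ z, t = z + 1 := ⟨t - 1, by omega⟩
  rw [hz] at ht1 ht2 ht3 hmin
  have hzz := hmin z (by omega) (by omega)
  -- last position before z of a different colour
  have hstart : ∃ a, y ≤ a ∧ a < z ∧ F f a ≠ F f z := by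
    rcases hzz with h | h
    · refine ⟨y + 1, by omega, ?_, ?_⟩
      · rcases Nat.lt_or_ge (y + 1) z with h5 | h5
        · exact h5
        · exfalso
          have : z = y + 1 := by omega
          rw [this] at h
          exact hy h.symm
      · rw [h]
        exact hy.symm
    · exact ⟨y, le_rfl, by omega, by rw [h]; exact hy⟩
  obtain ⟨a, ha1, ha2, ha3⟩ := hstart
  obtain ⟨m, hm1, hm2, hm3, hm4⟩ := exists_last (Q := fun u => F f u ≠ F f z) ha2 ha3
  refine ⟨m, z, hm2, ?_, hm3, ?_, ?_⟩
  · intro u h1 h2
    have := hm4 u h1 h2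
    simpa using this
  · rcases hzz with h | h
    · rw [h]; exact ht2
    · rw [h]; exact ht3
  · rcases hmin m (by omega) (by omega) with h | h
    · rw [h]; exact ht2
    · rw [h]; exact ht3

/-- every active position is in the orbit of one of two given ones -/
lemma two_orbits (h3 : (univ.image f).card = 3) {y0 z0 : ℕ} (hyz : y0 < z0)
    (hrun : ∀ u, y0 < u → u < z0 → F f u = F f z0) (hyz' : F f y0 ≠ F f z0)
    (hz1 : F f (z0 + 1) ≠ F f z0) (hz2 : F f (z0 + 1) ≠ F f y0) :
    ∀ z, z0 ≤ z → F f (z + 1) ≠ F f z →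
      Perm.SameCycle (rho f) (r N z) (r N z0) ∨ Perm.SameCycle (rho f) (r N z) (r N y0) := by
  classical
  have hcol : ∀ c ∈ univ.image f, c = F f y0 ∨ c = F f z0 ∨ c = F f (z0 + 1) := by
    have hmem : ∀ z, F f z ∈ univ.image f := fun z => mem_image_of_mem _ (mem_univ _)
    have hsub : ({F f y0, F f z0, F f (z0 + 1)} : Finset C) ⊆ univ.image f := by
      intro c hc
      simp only [mem_insert, mem_singleton] at hc
      rcases hc with rfl | rfl | rfl <;> exact hmem _
    have hcard : ({F f y0, F f z0, F f (z0 + 1)} : Finset C).card = 3 := by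
      rw [card_insert_of_notMem, card_insert_of_notMem, card_singleton]
      · rw [mem_singleton]
        exact hz1.symm
      · rw [mem_insert, mem_singleton, not_or]
        exact ⟨hyz', hz2.symm⟩
    have heq := Finset.eq_of_subset_of_card_le hsub (by rw [h3, hcard])
    intro c hc
    rw [← heq] at hc
    simpa using hc
  have hstep : ∀ {z w : ℕ}, w < z + 1 → F f w = F f (z + 1) →
      (∀ u, w < u → u < z + 1 → F f u ≠ F f (z + 1)) →
      Perm.SameCycle (rho f) (r N z) (r N w) := by
    intro z w h1 h2 h4
    refine ⟨1, ?_⟩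
    rw [zpow_one]
    exact rho_step f h1 h2 h4
  intro z
  induction z using Nat.strong_induction_on with
  | _ z ih =>
    intro hz hact
    rcases Nat.lt_or_ge z0 z with hlt | hge
    swap
    · left
      have : z = z0 := by omega
      rw [this]
    -- the previous active position
    obtain ⟨y, hy1, hy2, hy3, hy4⟩ : ∃ y, z0 ≤ y ∧ y < z ∧ F f y ≠ F f z ∧
        ∀ u, y < u → u < z → F f u = F f z := by
      have hst : ∃ a, z0 ≤ a ∧ a < z ∧ F f a ≠ F f z := by
        by_cases h : F f z0 = F f z
        · refine ⟨z0 + 1, by omega, ?_, ?_⟩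
          · rcases Nat.lt_or_ge (z0 + 1) z with h5 | h5
            · exact h5
            · exfalso
              have : z = z0 + 1 := by omega
              rw [this] at h
              exact hz1 h.symm
          · rw [← h]; exact hz1
        · exact ⟨z0, le_rfl, hlt, h⟩
      obtain ⟨a, ha1, ha2, ha3⟩ := hst
      obtain ⟨m, hm1, hm2, hm3, hm4⟩ := exists_last (Q := fun u => F f u ≠ F f z) ha2 ha3
      exact ⟨m, by omega, hm2, hm3, fun u h1 h2 => by simpa using hm4 u h1 h2⟩
    have hyact : F f (y + 1) ≠ F f y := by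
      rcases Nat.lt_or_ge (y + 1) z with h5 | h5
      · rw [hy4 (y + 1) (by omega) h5]
        exact hy3.symm
      · have : y + 1 = z := by omega
        rw [this]
        exact hy3.symm
    by_cases hca : F f (z + 1) = F f y
    · have hs := hstep (z := z) (w := y) (by omega) hca.symm (by
        intro u h1 h2
        rcases Nat.lt_or_ge u z with h5 | h5
        · rw [hy4 u h1 h5]
          exact hact.symm
        · have : u = z := by omega
          rw [this]
          exact hact.symm)
      rcases ih y hy2 hy1 hyact with h | h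
      · exact Or.inl (hs.trans h)
      · exact Or.inr (hs.trans h)
    · -- third colour
      have hmem : F f (z + 1) ∈ univ.image f := mem_image_of_mem _ (mem_univ _)
      have hex : ∃ a, y0 ≤ a ∧ a < z + 1 ∧ F f a = F f (z + 1) ∧ (a = y0 ∨ z0 ≤ a) := by
        rcases hcol _ hmem with h | h | h
        · exact ⟨y0, le_rfl, by omega, h.symm, Or.inl rfl⟩
        · exact ⟨z0, by omega, by omega, h.symm, Or.inr le_rfl⟩
        · exact ⟨z0 + 1, by omega, by omega, h.symm, Or.inr (by omega)⟩
      obtain ⟨a, ha1, ha2, ha3, ha4⟩ := hex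
      obtain ⟨w, hw1, hw2, hw3, hw4⟩ :=
        exists_last (Q := fun u => F f u = F f (z + 1)) ha2 ha3
      have hs := hstep (z := z) (w := w) hw2 hw3 hw4
      have hwz : w ≠ z := by
        intro h
        rw [h] at hw3
        exact hact hw3.symm
      rcases Nat.lt_or_ge w z0 with hwz0 | hwz0
      · -- then w = y0
        have hwy : w = y0 := by
          rcases ha4 with ha4 | ha4
          · rcases Nat.lt_or_ge y0 w with h5 | h5
            · exfalso
              have h6 := hrun w h5 hwz0
              have h7 := hw4 z0 hwz0 (by omega)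
              exact h7 (h6 ▸ hw3)
            · omega
          · omega
        right
        rw [← hwy]
        exact hs
      · have hwact : F f (w + 1) ≠ F f w := by
          rw [hw3]
          exact hw4 (w + 1) (by omega) (by omega)
        rcases ih w (by omega) hwz0 hwact with h | h
        · exact Or.inl (hs.trans h)
        · exact Or.inr (hs.trans h)

end Pool.Agent.R134.TB
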