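import Pool.Agent.R134.TB2

set_option autoImplicit false
set_option linter.unusedSectionVars false

namespace Pool.Agent.R134.TB

open Finset Equiv

variable {N : ℕ} {C : Type*} [DecidableEq C] (f : Fin (N + 1) → C)

/-- the number of `i` with `f (i + 1) ≠ f i` (cyclically) -/
def chg (f : Fin (N + 1) → C) : ℕ := (univ.filter fun i => f (i + 1) ≠ f i).card

lemma r_surj (i : Fin (N + 1)) (z0 : ℕ) : ∃ z, z0 ≤ z ∧ r N z = i := by
  refine ⟨i + (N + 1) * z0, ?_, ?_⟩
  · have : z0 ≤ (N + 1) * z0 := Nat.le_mul_of_pos_left _ (Nat.succ_pos _)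
    omega
  · rw [r_add]
    apply Fin.ext
    simp [r, Nat.mod_eq_of_lt i.2]

lemma r_succ (z : ℕ) : r N (z + 1) = r N z + 1 := by
  rw [← rotate_r, finRotate_apply]

lemma F_eq (z : ℕ) : F f z = f (r N z) := rfl

lemma numCycles_rho_bounds (h3 : (univ.image f).card = 3) :
    N + 1 - chg f + 1 ≤ numCycles (rho f) ∧ numCycles (rho f) ≤ N + 1 - chg f + 2 := by
  classical
  obtain ⟨y0, z0, hyz, hrun, hne, hz1, hz2⟩ := exists_rainbow f h3
  have htwo := two_orbits f h3 hyz hrun hne hz1 hz2
  have hfix : ∀ i : Fin (N + 1), rho f i = i ↔ f (i + 1) = f i := by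
    intro i
    obtain ⟨z, _, rfl⟩ := r_surj i 0
    rw [rho_fixed_iff, F_eq, F_eq, r_succ]
  have hcardfix : Fintype.card {i : Fin (N + 1) // f (i + 1) = f i} = N + 1 - chg f := by
    rw [Fintype.card_subtype]
    have := Finset.card_filter_add_card_filter_not (s := (univ : Finset (Fin (N + 1))))
      (fun i => f (i + 1) = f i)
    rw [Finset.card_univ, Fintype.card_fin] at this
    unfold chg
    simp only [ne_eq]
    omega
  have hfixcl : ∀ i j : Fin (N + 1), f (i + 1) = f i → Perm.SameCycle (rho f) i j → i = j := by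
    intro i j h1 h2
    exact h2.eq_of_left ((hfix i).mpr h1)
  have hz0act : f (r N z0 + 1) ≠ f (r N z0) := by
    rw [← r_succ]
    exact hz1
  unfold numCycles
  rw [Nat.card_eq_fintype_card]
  constructor
  · -- injection
    have h4 : Fintype.card ({i : Fin (N + 1) // f (i + 1) = f i} ⊕ Unit) =
        N + 1 - chg f + 1 := by
      rw [Fintype.card_sum, hcardfix, Fintype.card_unit]
    rw [← h4]
    apply Fintype.card_le_of_injective
      (fun x => Quotient.mk (Perm.SameCycle.setoid (rho f))
        (Sum.elim (fun i : {i : Fin (N + 1) // f (i + 1) = f i} => i.1) (fun _ => r N z0) x))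
    rintro (⟨i, hi⟩ | u) (⟨j, hj⟩ | v) h
    · have h5 : Perm.SameCycle (rho f) i j := Quotient.exact h
      have := hfixcl i j hi h5
      subst this
      rfl
    · exfalso
      have h5 : Perm.SameCycle (rho f) i (r N z0) := Quotient.exact h
      have := hfixcl _ _ hi h5
      rw [this] at hi
      exact hz0act hi
    · exfalso
      have h5 : Perm.SameCycle (rho f) (r N z0) j := Quotient.exact h
      have := hfixcl _ _ hj h5.symm
      rw [this] at hj
      exact hz0act hj
    · rfl
  · have h4 : Fintype.card ({i : Fin (N + 1) // f (i + 1) = f i} ⊕ Bool) =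
        N + 1 - chg f + 2 := by
      rw [Fintype.card_sum, hcardfix, Fintype.card_bool]
    rw [← h4]
    apply Fintype.card_le_of_surjective
      (fun x => Quotient.mk (Perm.SameCycle.setoid (rho f))
        (Sum.elim (fun i : {i : Fin (N + 1) // f (i + 1) = f i} => i.1)
          (fun b : Bool => if b then r N z0 else r N y0) x))
    intro q
    induction q using Quotient.inductionOn with
    | _ i =>
      by_cases hi : f (i + 1) = f i
      · exact ⟨Sum.inl ⟨i, hi⟩, rfl⟩
      · obtain ⟨z, hz, rfl⟩ := r_surj i z0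
        rw [← r_succ] at hi
        rcases htwo z hz hi with h | h
        · exact ⟨Sum.inr true, Quotient.sound h.symm⟩
        · exact ⟨Sum.inr false, Quotient.sound h.symm⟩

lemma numCycles_rho_parity (h3 : (univ.image f).card = 3) :
    Even (N + 1 + numCycles (rho f)) := by
  have h1 := sign_eq (rho f)
  have h2 : Perm.sign (rho f) = (-1) ^ (N + 1 + 3 + N) := by
    unfold rho
    rw [Perm.sign_mul, Perm.sign_inv, sign_eq, numCycles_blockPerm, h3, sign_finRotate]
    simp only [pow_add, Nat.add_sub_cancel]
  rw [h2] at h1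
  have h4 : ((-1 : ℤˣ)) ^ (N + 1 + 3 + N) = 1 := by
    apply Even.neg_one_pow
    exact ⟨N + 2, by ring⟩
  rw [h4] at h1
  by_contra hcon
  rw [Nat.not_even_iff_odd] at hcon
  rw [hcon.neg_one_pow] at h1
  exact absurd h1 (by decide)

/-- the number of cycles of `τ⁻¹ σ` for three blocks -/
lemma numCycles_rho (h3 : (univ.image f).card = 3) :
    numCycles (rho f) = N + 1 - chg f + (if Odd (chg f) then 1 else 2) := by
  have h1 := numCycles_rho_bounds f h3
  have h2 := numCycles_rho_parity f h3
  have h4 : chg f ≤ N + 1 := by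
    unfold chg
    exact (Finset.card_le_univ _).trans (by simp)
  obtain ⟨k, hk⟩ := h2
  split_ifs with h
  · obtain ⟨m, hm⟩ := h
    omega
  · rw [Nat.not_odd_iff_even] at h
    obtain ⟨m, hm⟩ := h
    omega

/-! ### Counting colourings -/

open Polynomial

lemma chg_lt (f : Fin (N + 1) → C) : chg f < N + 2 := by
  unfold chg
  have := (Finset.card_le_univ (univ.filter fun i => f (i + 1) ≠ f i))
  rw [Fintype.card_fin] at this
  omega

/-- number of changes along the path `0, 1, …, N` -/
def pchg (f : Fin (N + 1) → C) : ℕ := ∑ i : Fin N, if f i.succ ≠ f i.castSucc then 1 else 0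

lemma chg_eq (f : Fin (N + 1) → C) :
    chg f = pchg f + if f 0 ≠ f (Fin.last N) then 1 else 0 := by
  unfold chg pchg
  rw [Finset.card_filter, Fin.sum_univ_castSucc]
  congr 1
  · apply Finset.sum_congr rfl
    intro i _
    rw [Fin.coeSucc_eq_succ]
  · rw [Fin.last_add_one]

variable (C) [Fintype C]

/-- generating polynomial of the changes along paths with given ends -/
noncomputable def PP (N : ℕ) (a b : C) : ℚ[X] :=
  ∑ f : Fin (N + 1) → C, if f 0 = a ∧ f (Fin.last N) = b then X ^ pchg f else 0

lemma PP_zero (a b : C) : PP C 0 a b = if a = b then 1 else 0 := by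
  unfold PP
  have : ∀ f : Fin 1 → C, (if f 0 = a ∧ f (Fin.last 0) = b then (X : ℚ[X]) ^ pchg f else 0) =
      if f 0 = a then (if a = b then 1 else 0) else 0 := by
    intro f
    have h0 : Fin.last 0 = 0 := rfl
    rw [h0]
    have hp : pchg f = 0 := by simp [pchg]
    by_cases h1 : f 0 = a
    · by_cases h2 : a = b
      · subst h2
        simp [h1, hp]
      · simp [h1, h2]
    · simp [h1]
  rw [Finset.sum_congr rfl (fun f _ => this f)]
  rw [← (Equiv.funUnique (Fin 1) C).symm.sum_comp]
  simp

lemma PP_succ (N : ℕ) (a b : C) :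
    PP C (N + 1) a b = ∑ c, PP C N a c * (if b ≠ c then X else 1) := by
  unfold PP
  rw [← (Fin.snocEquiv (fun _ : Fin (N + 2) => C)).sum_comp]
  rw [Fintype.sum_prod_type]
  simp only [Finset.sum_mul]
  rw [Finset.sum_comm]
  rw [Finset.sum_comm (s := (univ : Finset C))]
  apply Finset.sum_congr rfl
  intro g _
  have hkey : ∀ c : C, pchg (Fin.snoc (α := fun _ => C) g c : Fin (N + 2) → C) =
      pchg g + if c ≠ g (Fin.last N) then 1 else 0 := by
    intro c
    unfold pchg
    rw [Fin.sum_univ_castSucc]
    congr 1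
    · apply Finset.sum_congr rfl
      intro i _
      rw [Fin.succ_castSucc, Fin.snoc_castSucc, Fin.snoc_castSucc]
    · rw [Fin.succ_last, Fin.snoc_last, Fin.snoc_castSucc]
  have h0 : ∀ c : C, (Fin.snoc (α := fun _ => C) g c : Fin (N + 2) → C) 0 = g 0 := by
    intro c
    have : (0 : Fin (N + 2)) = Fin.castSucc 0 := rfl
    rw [this, Fin.snoc_castSucc]
  have hl : ∀ c : C, (Fin.snoc (α := fun _ => C) g c : Fin (N + 2) → C) (Fin.last (N + 1)) = c := by
    intro c
    rw [Fin.snoc_last]
  calc ∑ c, (if (Fin.snocEquiv (fun _ : Fin (N + 2) => C)) (c, g) 0 = a ∧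
        (Fin.snocEquiv (fun _ : Fin (N + 2) => C)) (c, g) (Fin.last (N + 1)) = b
        then (X : ℚ[X]) ^ pchg ((Fin.snocEquiv (fun _ : Fin (N + 2) => C)) (c, g)) else 0)
      = ∑ c, (if c = b then (if g 0 = a then
          (X : ℚ[X]) ^ (pchg g + if c ≠ g (Fin.last N) then 1 else 0) else 0) else 0) := by
        apply Finset.sum_congr rfl
        intro c _
        have h0' := h0 c
        have hl' := hl c
        have hk := hkey c
        change (if (Fin.snoc (α := fun _ => C) g c : Fin (N + 2) → C) 0 = a ∧
          (Fin.snoc (α := fun _ => C) g c : Fin (N + 2) → C) (Fin.last (N + 1)) = b then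
          (X : ℚ[X]) ^ pchg (Fin.snoc (α := fun _ => C) g c : Fin (N + 2) → C) else 0) = _
        rw [h0', hl', hk]
        by_cases h1 : c = b
        · by_cases h2 : g 0 = a
          · simp [h1, h2]
          · simp [h1, h2]
        · simp [h1]
    _ = if g 0 = a then (X : ℚ[X]) ^ (pchg g + if b ≠ g (Fin.last N) then 1 else 0) else 0 := by
        rw [Finset.sum_ite_eq' univ b]
        simp
    _ = ∑ c, (if g 0 = a ∧ g (Fin.last N) = c then (X : ℚ[X]) ^ pchg g else 0) *
          (if b ≠ c then X else 1) := by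
        rw [Finset.sum_eq_single (g (Fin.last N))]
        · by_cases h2 : g 0 = a
          · by_cases h3 : b ≠ g (Fin.last N)
            · simp only [h2, h3, if_true, and_self, ne_eq, not_false_eq_true, pow_add, pow_one]
            · push Not at h3
              simp [h2, h3]
          · simp [h2]
        · intro c _ hc
          rw [if_neg (by rintro ⟨_, h⟩; exact hc h.symm), zero_mul]
        · intro h
          exact absurd (mem_univ _) h

lemma PP_formula (N : ℕ) (a b : C) :
    (Fintype.card C : ℚ[X]) * PP C N a b = (if a = b then (Fintype.card C : ℚ[X]) * (1 - X) ^ N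
      else 0) + ((1 + ((Fintype.card C : ℚ[X]) - 1) * X) ^ N - (1 - X) ^ N) := by
  induction N generalizing b with
  | zero =>
    rw [PP_zero]
    split_ifs <;> simp
  | succ N ih =>
    rw [PP_succ, Finset.mul_sum]
    set q : ℚ[X] := (Fintype.card C : ℚ[X]) with hq
    have h1 : ∀ c, q * (PP C N a c * (if b ≠ c then X else 1)) =
        ((if a = c then q * (1 - X) ^ N else 0) +
          ((1 + (q - 1) * X) ^ N - (1 - X) ^ N)) * (X + (if b = c then 1 - X else 0)) := by
      intro c
      rw [← ih c, mul_assoc]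
      congr 2
      by_cases h2 : b = c
      · rw [if_neg (not_not.mpr h2), if_pos h2]
        ring
      · rw [if_pos h2, if_neg h2]
        ring
    rw [Finset.sum_congr rfl (fun c _ => h1 c)]
    simp only [add_mul, mul_add, Finset.sum_add_distrib, ← Finset.sum_mul, ← Finset.mul_sum]
    rw [Finset.sum_ite_eq univ a, Finset.sum_ite_eq univ b]
    have h2 : ∑ c : C, (if a = c then q * (1 - X) ^ N else 0) * (if b = c then 1 - X else 0) =
        if a = b then q * (1 - X) ^ (N + 1) else 0 := by
      rw [Finset.sum_eq_single a]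
      · simp only [if_true]
        by_cases h : b = a
        · rw [if_pos h, if_pos h.symm, pow_succ]; ring
        · rw [if_neg h, if_neg (fun h' => h h'.symm), mul_zero]
      · intro c _ hc
        rw [if_neg (fun h => hc h.symm), zero_mul]
      · intro h
        exact absurd (mem_univ _) h
    rw [h2]
    simp only [mem_univ, if_true, Finset.sum_const, Finset.card_univ, nsmul_eq_mul, ← hq]
    split_ifs <;> ring

/-- generating polynomial of the number of cyclic changes -/
noncomputable def CC (N : ℕ) : ℚ[X] := ∑ f : Fin (N + 1) → C, X ^ chg f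

lemma CC_eq (N : ℕ) : CC C N = ∑ a, PP C (N + 1) a a := by
  have h1 : ∀ a, PP C (N + 1) a a = ∑ c, PP C N a c * (if a ≠ c then X else 1) := by
    intro a
    rw [PP_succ]
  rw [Finset.sum_congr rfl (fun a _ => h1 a)]
  unfold CC PP
  simp only [Finset.sum_mul]
  have h2 : ∀ a : C, ∑ c, ∑ f : Fin (N + 1) → C, (if f 0 = a ∧ f (Fin.last N) = c then
      (X : ℚ[X]) ^ pchg f else 0) * (if a ≠ c then X else 1) =
      ∑ f : Fin (N + 1) → C, ∑ c, (if f 0 = a ∧ f (Fin.last N) = c then
      (X : ℚ[X]) ^ pchg f else 0) * (if a ≠ c then X else 1) := fun a => Finset.sum_comm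
  rw [Finset.sum_congr rfl (fun a _ => h2 a), Finset.sum_comm]
  apply Finset.sum_congr rfl
  intro f _
  rw [Finset.sum_eq_single (f 0), Finset.sum_eq_single (f (Fin.last N)), chg_eq, pow_add]
  · simp only [and_self, if_true]
    congr 1
    split_ifs <;> simp
  · intro c _ hc
    rw [if_neg (by rintro ⟨_, h⟩; exact hc h.symm), zero_mul]
  · intro h; exact absurd (mem_univ _) h
  · intro a _ ha
    apply Finset.sum_eq_zero
    intro c _
    rw [if_neg (by rintro ⟨h, _⟩; exact ha h.symm), zero_mul]
  · intro h; exact absurd (mem_univ _) h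

lemma CC_formula [Nonempty C] (N : ℕ) : CC C N =
    (1 + ((Fintype.card C : ℚ[X]) - 1) * X) ^ (N + 1) +
      ((Fintype.card C : ℚ[X]) - 1) * (1 - X) ^ (N + 1) := by
  have hq : (Fintype.card C : ℚ[X]) ≠ 0 := by
    have : Fintype.card C ≠ 0 := Fintype.card_ne_zero
    exact_mod_cast this
  apply mul_left_cancel₀ hq
  rw [CC_eq, Finset.mul_sum, Finset.sum_congr rfl (fun a _ => PP_formula C (N + 1) a a)]
  simp only [if_true, Finset.sum_const, Finset.card_univ, nsmul_eq_mul]
  ring

end Pool.Agent.R134.TB
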