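import Pool.Agent.R134.TB3

set_option autoImplicit false
set_option linter.unusedSectionVars false

namespace Pool.Agent.R134.TB

open Finset Equiv Polynomial

variable {N : ℕ}

lemma chg_comp {C D : Type*} [DecidableEq C] [DecidableEq D] (f : Fin (N + 1) → C) (g : C → D)
    (hg : Function.Injective g) : chg (fun i => g (f i)) = chg f := by
  unfold chg
  congr 1
  ext i
  simp [hg.eq_iff]

lemma sum_subset (S : Finset (Fin 3)) :
    ∑ f : Fin (N + 1) → Fin 3, (if ∀ i, f i ∈ S then (X : ℚ[X]) ^ chg f else 0) =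
      CC (S : Type) N := by
  classical
  rw [← Finset.sum_filter]
  unfold CC
  symm
  apply Finset.sum_bij (fun (g : Fin (N + 1) → S) _ => fun i => (g i : Fin 3))
  · intro g _
    simp
  · intro g _ g' _ h
    funext i
    exact Subtype.ext (congrFun h i)
  · intro f hf
    simp only [mem_filter, mem_univ, true_and] at hf
    exact ⟨fun i => ⟨f i, hf i⟩, mem_univ _, rfl⟩
  · intro g _
    rw [chg_comp g (fun x : S => (x : Fin 3)) Subtype.val_injective]

lemma CC_card {C : Type} [DecidableEq C] [Fintype C] [Nonempty C] {k : ℕ}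
    (h : Fintype.card C = k + 1) :
    CC C N = (1 + (k : ℚ[X]) * X) ^ (N + 1) + (k : ℚ[X]) * (1 - X) ^ (N + 1) := by
  rw [CC_formula, h]
  push_cast
  ring

lemma pointwise : ∀ I : Finset (Fin 3), I.Nonempty →
    ((if I = univ then 1 else 0 : ℤ)) = 1 - ∑ c : Fin 3, (if I ⊆ univ.erase c then 1 else 0) +
      ∑ c : Fin 3, (if I ⊆ {c} then 1 else 0) := by
  decide

/-- generating polynomial of surjective colourings with three colours -/
lemma surj_formula (N : ℕ) :
    ∑ f : Fin (N + 1) → Fin 3, (if univ.image f = univ then (X : ℚ[X]) ^ chg f else 0) =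
      (1 + 2 * X) ^ (N + 1) - 3 * (1 + X) ^ (N + 1) - (1 - X) ^ (N + 1) + 3 := by
  classical
  have hsub : ∀ (f : Fin (N + 1) → Fin 3) (S : Finset (Fin 3)),
      univ.image f ⊆ S ↔ ∀ i, f i ∈ S := by
    intro f S
    rw [Finset.image_subset_iff]
    simp
  have h1 : ∀ f : Fin (N + 1) → Fin 3, (if univ.image f = univ then (X : ℚ[X]) ^ chg f else 0) =
      (if ∀ i, f i ∈ (univ : Finset (Fin 3)) then (X : ℚ[X]) ^ chg f else 0) -
      ∑ c : Fin 3, (if ∀ i, f i ∈ univ.erase c then (X : ℚ[X]) ^ chg f else 0) +
      ∑ c : Fin 3, (if ∀ i, f i ∈ ({c} : Finset (Fin 3)) then (X : ℚ[X]) ^ chg f else 0) := by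
    intro f
    have hne : (univ.image f).Nonempty := ⟨f 0, mem_image_of_mem _ (mem_univ _)⟩
    have h2 := congrArg (fun z : ℤ => (z : ℚ[X]) * X ^ chg f) (pointwise _ hne)
    simp only [Int.cast_add, Int.cast_sub, Int.cast_sum, Int.cast_ite, Int.cast_one,
      Int.cast_zero, add_mul, sub_mul, one_mul, Finset.sum_mul, ite_mul, zero_mul, hsub] at h2
    rw [h2]
    simp only [mem_univ, implies_true, if_true]
  rw [Finset.sum_congr rfl (fun f _ => h1 f), Finset.sum_add_distrib, Finset.sum_sub_distrib,
    Finset.sum_comm (s := (univ : Finset (Fin (N + 1) → Fin 3))) (t := (univ : Finset (Fin 3))),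
    Finset.sum_comm (s := (univ : Finset (Fin (N + 1) → Fin 3))) (t := (univ : Finset (Fin 3)))]
  simp only [sum_subset]
  have e0 : CC ((univ : Finset (Fin 3)) : Type) N =
      (1 + ((2 : ℕ) : ℚ[X]) * X) ^ (N + 1) + ((2 : ℕ) : ℚ[X]) * (1 - X) ^ (N + 1) := by
    have : Nonempty ((univ : Finset (Fin 3)) : Type) := ⟨⟨0, mem_univ _⟩⟩
    apply CC_card
    rw [Fintype.card_coe]
    rfl
  have e1 : ∀ c : Fin 3, CC ((univ.erase c : Finset (Fin 3)) : Type) N =
      (1 + ((1 : ℕ) : ℚ[X]) * X) ^ (N + 1) + ((1 : ℕ) : ℚ[X]) * (1 - X) ^ (N + 1) := by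
    intro c
    have hc : (univ.erase c : Finset (Fin 3)).card = 2 := by
      rw [Finset.card_erase_of_mem (mem_univ _)]
      rfl
    have : Nonempty ((univ.erase c : Finset (Fin 3)) : Type) := by
      rw [← Fintype.card_pos_iff, Fintype.card_coe, hc]
      norm_num
    apply CC_card
    rw [Fintype.card_coe, hc]
  have e2 : ∀ c : Fin 3, CC (({c} : Finset (Fin 3)) : Type) N =
      (1 + ((0 : ℕ) : ℚ[X]) * X) ^ (N + 1) + ((0 : ℕ) : ℚ[X]) * (1 - X) ^ (N + 1) := by
    intro c
    have : Nonempty (({c} : Finset (Fin 3)) : Type) := ⟨⟨c, by simp⟩⟩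
    apply CC_card
    rw [Fintype.card_coe, card_singleton]
  rw [e0, Finset.sum_congr rfl (fun c _ => e1 c), Finset.sum_congr rfl (fun c _ => e2 c)]
  simp only [Finset.sum_const, Finset.card_univ, Fintype.card_fin, nsmul_eq_mul]
  push_cast
  ring

lemma coeff_lin (a : ℚ) (n M : ℕ) : ((1 + C a * X) ^ n : ℚ[X]).coeff M = n.choose M * a ^ M := by
  rw [add_comm, add_pow, Polynomial.finsetSum_coeff]
  have h : ∀ m ∈ range (n + 1), ((C a * X) ^ m * 1 ^ (n - m) * (n.choose m : ℚ[X])).coeff M =
      if m = M then (n.choose M * a ^ M : ℚ) else 0 := by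
    intro m _
    rw [one_pow, mul_one, mul_pow, ← C_pow, ← Polynomial.C_eq_natCast, mul_right_comm, ← C_mul,
      Polynomial.coeff_C_mul_X_pow]
    split_ifs with h1 h2 h2
    · rw [h1]; ring
    · exact absurd h1.symm h2
    · exact absurd h2.symm h1
    · rfl
  rw [Finset.sum_congr rfl h, Finset.sum_ite_eq']
  split_ifs with h1
  · rfl
  · rw [mem_range, not_lt] at h1
    rw [Nat.choose_eq_zero_of_lt (by omega)]
    simp

lemma surj_card (N M : ℕ) (hM : 1 ≤ M) :
    ((univ.filter fun f : Fin (N + 1) → Fin 3 => univ.image f = univ ∧ chg f = M).card : ℚ) =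
      (N + 1).choose M * (2 ^ M - 3 - (-1) ^ M) := by
  classical
  have h1 := congrArg (fun p : ℚ[X] => p.coeff M) (surj_formula N)
  simp only [Polynomial.finsetSum_coeff] at h1
  have h2 : ∀ f : Fin (N + 1) → Fin 3,
      (if univ.image f = univ then (X : ℚ[X]) ^ chg f else 0).coeff M =
        if univ.image f = univ ∧ chg f = M then 1 else 0 := by
    intro f
    by_cases h3 : univ.image f = univ
    · simp only [h3, if_true, true_and, Polynomial.coeff_X_pow]
      by_cases h4 : chg f = M
      · simp [h4]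
      · rw [if_neg h4, if_neg (fun h => h4 h.symm)]
    · simp [h3]
  rw [Finset.sum_congr rfl (fun f _ => h2 f), Finset.sum_boole] at h1
  rw [h1]
  have e1 : (1 + 2 * X : ℚ[X]) = 1 + C 2 * X := by rw [map_ofNat C 2]
  have e2 : (1 + X : ℚ[X]) = 1 + C 1 * X := by simp
  have e3 : (1 - X : ℚ[X]) = 1 + C (-1) * X := by simp; ring
  have e4 : (3 : ℚ[X]) = C 3 := (map_ofNat C 3).symm
  rw [e1, e2, e3, e4, Polynomial.coeff_add, Polynomial.coeff_sub, Polynomial.coeff_sub,
    Polynomial.coeff_C_mul, coeff_lin, coeff_lin, coeff_lin, Polynomial.coeff_C,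
    if_neg (by omega)]
  ring

/-! ### Partitions and colourings -/

lemma parts_eq_image (α : Finpartition (univ : Finset (Fin (N + 1)))) :
    α.parts = univ.image α.part := by
  ext p
  rw [mem_image]
  constructor
  · intro hp
    obtain ⟨i, hi⟩ := α.nonempty_of_mem_parts hp
    exact ⟨i, mem_univ _, α.part_eq_of_mem hp hi⟩
  · rintro ⟨i, _, rfl⟩
    exact α.part_mem.mpr (mem_univ _)

lemma ext_of_part {α β : Finpartition (univ : Finset (Fin (N + 1)))}
    (h : ∀ i j, α.part i = α.part j ↔ β.part i = β.part j) : α = β := by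
  have h1 : α.part = β.part := by
    funext i
    ext j
    rw [α.mem_part_iff_part_eq_part (mem_univ _) (mem_univ _),
      β.mem_part_iff_part_eq_part (mem_univ _) (mem_univ _)]
    exact h j i
  apply Finpartition.ext
  rw [parts_eq_image, parts_eq_image, h1]

/-- the colouring given by a partition and a bijection of its parts with `Fin 3` -/
def col (α : Finpartition (univ : Finset (Fin (N + 1)))) (g : α.parts ≃ Fin 3) :
    Fin (N + 1) → Fin 3 := fun i => g ⟨α.part i, α.part_mem.mpr (mem_univ _)⟩

lemma chg_col (α : Finpartition (univ : Finset (Fin (N + 1)))) (g : α.parts ≃ Fin 3) :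
    chg (col α g) = chg α.part := by
  unfold chg col
  congr 1
  ext i
  simp

lemma card_partitions (N M : ℕ) :
    (univ.filter fun f : Fin (N + 1) → Fin 3 => univ.image f = univ ∧ chg f = M).card =
      6 * (univ.filter fun α : Finpartition (univ : Finset (Fin (N + 1))) =>
        α.parts.card = 3 ∧ chg α.part = M).card := by
  classical
  rw [← Fintype.card_subtype, ← Fintype.card_subtype]
  let T := {α : Finpartition (univ : Finset (Fin (N + 1))) // α.parts.card = 3 ∧ chg α.part = M}
  have h1 : Fintype.card (Σ α : T, (α.1.parts ≃ Fin 3)) = 6 * Fintype.card T := by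
    rw [Fintype.card_sigma]
    have : ∀ α : T, Fintype.card (α.1.parts ≃ Fin 3) = 6 := by
      intro α
      have hc : Fintype.card α.1.parts = 3 := by rw [Fintype.card_coe]; exact α.2.1
      have e : α.1.parts ≃ Fin 3 := Fintype.equivFinOfCardEq hc
      rw [Fintype.card_equiv e, hc]
      rfl
    rw [Finset.sum_congr rfl (fun α _ => this α), Finset.sum_const, Finset.card_univ, smul_eq_mul,
      mul_comm]
  rw [← h1]
  symm
  apply Fintype.card_of_bijective (f := fun (x : Σ α : T, (α.1.parts ≃ Fin 3)) =>
    (⟨col x.1.1 x.2, by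
      constructor
      · ext c
        simp only [mem_image, mem_univ, true_and, iff_true]
        obtain ⟨i, hi⟩ := x.1.1.nonempty_of_mem_parts (x.2.symm c).2
        refine ⟨i, ?_⟩
        unfold col
        have : (⟨x.1.1.part i, x.1.1.part_mem.mpr (mem_univ _)⟩ : x.1.1.parts) = x.2.symm c :=
          Subtype.ext (x.1.1.part_eq_of_mem (x.2.symm c).2 hi)
        rw [this, Equiv.apply_symm_apply]
      · rw [chg_col]
        exact x.1.2.2⟩ :
      {f : Fin (N + 1) → Fin 3 // univ.image f = univ ∧ chg f = M}))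
  constructor
  · rintro ⟨⟨α, hα⟩, g⟩ ⟨⟨β, hβ⟩, h⟩ heq
    have heq' : col α g = col β h := congrArg Subtype.val heq
    have hab : α = β := by
      apply ext_of_part
      intro i j
      have h2 : ∀ (γ : Finpartition (univ : Finset (Fin (N + 1)))) (k : γ.parts ≃ Fin 3),
          γ.part i = γ.part j ↔ col γ k i = col γ k j := by
        intro γ k
        unfold col
        rw [k.injective.eq_iff, Subtype.mk.injEq]
      rw [h2 α g, h2 β h, heq']
    subst hab
    have hgh : g = h := by
      ext ⟨p, hp⟩
      obtain ⟨i, hi⟩ := α.nonempty_of_mem_parts hp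
      have h3 := congrFun heq' i
      unfold col at h3
      have h4 : (⟨α.part i, α.part_mem.mpr (mem_univ _)⟩ : α.parts) = ⟨p, hp⟩ :=
        Subtype.ext (α.part_eq_of_mem hp hi)
      rw [h4] at h3
      rw [h3]
    subst hgh
    rfl
  · rintro ⟨f, hf1, hf2⟩
    let α : Finpartition (univ : Finset (Fin (N + 1))) := Finpartition.ofSetoid (Setoid.ker f)
    have hpart : ∀ i j, j ∈ α.part i ↔ f i = f j := by
      intro i j
      exact Finpartition.mem_part_ofSetoid_iff_rel
    have hpart' : ∀ i j, α.part i = α.part j ↔ f i = f j := by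
      intro i j
      rw [← hpart, ← α.mem_part_iff_part_eq_part (mem_univ _) (mem_univ _), hpart, hpart]
      exact eq_comm
    -- the bijection
    let φ : Fin (N + 1) → α.parts := fun i => ⟨α.part i, α.part_mem.mpr (mem_univ _)⟩
    have hsf : Function.Surjective f := by
      intro c
      have : c ∈ univ.image f := by rw [hf1]; exact mem_univ _
      rw [mem_image] at this
      obtain ⟨i, _, hi⟩ := this
      exact ⟨i, hi⟩
    let s : Fin 3 → Fin (N + 1) := Function.surjInv hsf
    have hs : ∀ c, f (s c) = c := Function.surjInv_eq hsf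
    have hbij : Function.Bijective (fun c => φ (s c)) := by
      constructor
      · intro c d h
        have h2 : α.part (s c) = α.part (s d) := congrArg Subtype.val h
        rw [hpart', hs, hs] at h2
        exact h2
      · rintro ⟨p, hp⟩
        obtain ⟨i, hi⟩ := α.nonempty_of_mem_parts hp
        refine ⟨f i, ?_⟩
        apply Subtype.ext
        change α.part (s (f i)) = p
        rw [← α.part_eq_of_mem hp hi, hpart', hs]
    let g : α.parts ≃ Fin 3 := (Equiv.ofBijective _ hbij).symm
    have hcol : col α g = f := by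
      funext i
      unfold col
      change (Equiv.ofBijective _ hbij).symm _ = _
      rw [Equiv.symm_apply_eq]
      apply Subtype.ext
      change α.part i = α.part (s (f i))
      rw [hpart', hs]
    refine ⟨⟨⟨α, ?_, ?_⟩, g⟩, ?_⟩
    · rw [← Fintype.card_coe, Fintype.card_congr g, Fintype.card_fin]
    · rw [← chg_col α g, hcol]
      exact hf2
    · apply Subtype.ext
      exact hcol

lemma numCycles_rotate (N : ℕ) : numCycles (finRotate (N + 1)) = 1 := by
  unfold numCycles
  rw [Nat.card_eq_one_iff_unique]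
  constructor
  · constructor
    intro a b
    induction a using Quotient.inductionOn with
    | _ i =>
      induction b using Quotient.inductionOn with
      | _ j =>
        have h : ∀ z, Perm.SameCycle (finRotate (N + 1)) (r N 0) (r N z) := by
          intro z
          induction z with
          | zero => exact Perm.SameCycle.refl _ _
          | succ z ih =>
            refine ih.trans ⟨1, ?_⟩
            rw [zpow_one, rotate_r]
        obtain ⟨z, _, rfl⟩ := r_surj i 0
        obtain ⟨w, _, rfl⟩ := r_surj j 0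
        exact Quotient.sound ((h z).symm.trans (h w))
  · exact ⟨Quotient.mk _ 0⟩

end Pool.Agent.R134.TB
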